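import Pool.Agent.TH814.GD.Codim

set_option autoImplicit false

/-!
Functions with linearly independent differentials as part of a coordinate system.
-/

namespace Pool.Agent.TH814.GD

open Filter Topology Set Module
open scoped ContDiff

section

variable {E : Type} [NormedAddCommGroup E] [NormedSpace ℂ E] [FiniteDimensional ℂ E]

lemma chart {ι : Type} {f : ι → E → ℂ} {x₀ : E} {U : Set E} (hU : IsOpen U)
    (hx₀ : x₀ ∈ U) (hf : ∀ i, AnalyticAt ℂ (f i) x₀)
    (hli : LinearIndependent ℂ (fun i => fderiv ℂ (f i) x₀)) :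
    ∃ (J : Type) (_ : Fintype J) (σ : ι → J) (V : Set (J → ℂ)) (Λ : (J → ℂ) → E)
      (Φ : E → (J → ℂ)), Function.Injective σ ∧ IsOpen V ∧ IsPreconnected V ∧ V.Nonempty ∧
      AnalyticOnNhd ℂ Λ V ∧ (∀ y ∈ V, Λ y ∈ U) ∧ (∀ y ∈ V, ∀ i, f i (Λ y) = y (σ i)) ∧
      ∀ᶠ x in 𝓝 x₀, Φ x ∈ V ∧ Λ (Φ x) = x := by
  classical
  have : CompleteSpace E := FiniteDimensional.complete ℂ E
  have hs := hli.linearIndepOn_id
  set b := Module.Basis.extend hs with hb
  have : Finite (hs.extend (subset_univ _)) := Module.Finite.finite_basis b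
  have : Fintype (hs.extend (subset_univ _)) := Fintype.ofFinite _
  set σ : ι → hs.extend (subset_univ _) := fun i =>
    ⟨fderiv ℂ (f i) x₀, Module.Basis.subset_extend hs (mem_range_self i)⟩ with hσ
  have hσi : Function.Injective σ := fun i j h => hli.injective (congrArg Subtype.val h)
  have hbσ : ∀ i, b (σ i) = fderiv ℂ (f i) x₀ := fun i => Module.Basis.extend_apply_self hs _
  set Φ : E → (hs.extend (subset_univ _) → ℂ) := fun x s =>
    if h : ∃ i, σ i = s then f h.choose x else b s x with hΦ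
  have hΦσ : ∀ x i, Φ x (σ i) = f i x := by
    intro x i
    have h : ∃ j, σ j = σ i := ⟨i, rfl⟩
    simp only [hΦ, h, dite_true]
    rw [hσi h.choose_spec]
  have hΦa : AnalyticAt ℂ Φ x₀ := by
    rw [analyticAt_pi_iff]
    intro s
    by_cases h : ∃ i, σ i = s
    · simp only [hΦ, h, dite_true]
      exact hf _
    · simp only [hΦ, h, dite_false]
      exact (b s).analyticAt _
  have hinj : Function.Injective (LinearMap.pi fun s => (b s : E →ₗ[ℂ] ℂ)) := by
    rw [← LinearMap.ker_eq_bot, LinearMap.ker_eq_bot']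
    intro v hv
    apply SeparatingDual.eq_zero_of_forall_dual_eq_zero (R := ℂ)
    intro φ
    have h1 : ∀ s, b s v = 0 := fun s => congrFun hv s
    have h2 : φ = ∑ s, b.repr φ s • b s := (b.sum_repr φ).symm
    rw [h2, sum_apply]
    apply Finset.sum_eq_zero
    intro s _
    rw [smul_apply, h1 s, smul_zero]
  have hdim : finrank ℂ E = finrank ℂ (hs.extend (subset_univ _) → ℂ) := by
    rw [Module.finrank_pi, ← Module.finrank_eq_card_basis b,
      ← (LinearMap.toContinuousLinearMap (𝕜 := ℂ) (E := E) (F' := ℂ)).finrank_eq]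
    exact (Subspace.dual_finrank_eq (K := ℂ) (V := E)).symm
  set L := (LinearMap.linearEquivOfInjective _ hinj hdim).toContinuousLinearEquiv with hL
  have hfd : HasFDerivAt Φ (L : E →L[ℂ] (hs.extend (subset_univ _) → ℂ)) x₀ := by
    rw [hasFDerivAt_pi']
    intro s
    have e1 : (ContinuousLinearMap.proj (R := ℂ)
        (φ := fun _ : hs.extend (subset_univ _) => ℂ) s).comp
        (L : E →L[ℂ] (hs.extend (subset_univ _) → ℂ)) = b s := by
      ext v
      rfl
    rw [e1]
    by_cases h : ∃ i, σ i = s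
    · have e2 : b s = fderiv ℂ (f h.choose) x₀ := by
        rw [← hbσ, h.choose_spec]
      simp only [hΦ, h, dite_true]
      rw [e2]
      exact (hf _).differentiableAt.hasFDerivAt
    · simp only [hΦ, h, dite_false]
      exact (b s).hasFDerivAt
  have hcd : ContDiffAt ℂ ω Φ x₀ := hΦa.contDiffAt
  have hω : (ω : WithTop ℕ∞) ≠ 0 := by simp
  have hstr : HasStrictFDerivAt Φ (L : E →L[ℂ] (hs.extend (subset_univ _) → ℂ)) x₀ := by
    have := hΦa.hasStrictFDerivAt
    rwa [hfd.fderiv] at this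
  have hΛa : AnalyticAt ℂ (hstr.localInverse Φ L x₀) (Φ x₀) :=
    (hcd.to_localInverse hfd hω).analyticAt
  have hev : ∀ᶠ y in 𝓝 (Φ x₀), AnalyticAt ℂ (hstr.localInverse Φ L x₀) y ∧
      hstr.localInverse Φ L x₀ y ∈ U ∧ Φ (hstr.localInverse Φ L x₀ y) = y :=
    hΛa.eventually_analyticAt.and ((hstr.localInverse_tendsto.eventually (hU.mem_nhds hx₀)).and
      hstr.eventually_right_inverse)
  obtain ⟨ε, hε, hball⟩ := Metric.eventually_nhds_iff_ball.1 hev
  refine ⟨_, inferInstance, σ, Metric.ball (Φ x₀) ε, hstr.localInverse Φ L x₀, Φ, hσi,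
    Metric.isOpen_ball, (convex_ball _ _).isPreconnected, ⟨_, Metric.mem_ball_self hε⟩,
    fun y hy => (hball y hy).1, fun y hy => (hball y hy).2.1, ?_, ?_⟩
  · intro y hy i
    rw [← hΦσ, (hball y hy).2.2]
  · exact (hΦa.continuousAt.eventually (Metric.ball_mem_nhds _ hε)).and
      hstr.eventually_left_inverse

omit [FiniteDimensional ℂ E] in
lemma nonzero_near {σ : Type} {Ω : Set E} (hp : IsPreconnected Ω)
    {u : σ → E → ℂ} (hu : ∀ i, AnalyticOnNhd ℂ (u i) Ω) (hne : ∀ i, ∃ x ∈ Ω, u i x ≠ 0)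
    (s : Finset σ) : ∀ W : Set E, IsOpen W → W ⊆ Ω → W.Nonempty →
      ∃ x ∈ W, ∀ i ∈ s, u i x ≠ 0 := by
  classical
  induction s using Finset.induction_on with
  | empty =>
    rintro W - - ⟨x, hx⟩
    exact ⟨x, hx, fun i hi => absurd hi (Finset.notMem_empty _)⟩
  | insert a s _ ih =>
    intro W hW hWΩ hWne
    have hW' : IsOpen (W ∩ u a ⁻¹' {0}ᶜ) :=
      ((hu a).mono hWΩ).continuousOn.isOpen_inter_preimage hW isOpen_compl_singleton
    have hne' : (W ∩ u a ⁻¹' {0}ᶜ).Nonempty := by
      by_contra hcon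
      obtain ⟨w, hw⟩ := hWne
      obtain ⟨x, hx, hx0⟩ := hne a
      have h1 : u a =ᶠ[𝓝 w] 0 := by
        filter_upwards [hW.mem_nhds hw] with y hy
        by_contra h0
        exact hcon ⟨y, hy, h0⟩
      exact hx0 ((hu a).eqOn_zero_of_preconnected_of_eventuallyEq_zero hp (hWΩ hw) h1 hx)
    obtain ⟨x, hx, hxs⟩ := ih _ hW' (inter_subset_left.trans hWΩ) hne'
    refine ⟨x, hx.1, fun i hi => ?_⟩
    rcases Finset.mem_insert.1 hi with rfl | hi
    · exact hx.2
    · exact hxs i hi

end

/-- inverting some of the variables -/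
lemma invert {σ : Type} [Fintype σ] (S : σ → Prop) (P : MvPolynomial σ ℂ) (hP : P ≠ 0) :
    ∃ P' : MvPolynomial σ ℂ, P' ≠ 0 ∧ ∀ y y' : σ → ℂ, (∀ s, S s → y' s * y s = 1) →
      (∀ s, ¬ S s → y' s = y s) → MvPolynomial.eval y P = 0 → MvPolynomial.eval y' P' = 0 := by
  classical
  set N := P.totalDegree with hN
  have hle : ∀ m ∈ P.support, ∀ s, m s ≤ N := by
    intro m hm s
    have h1 : (m.sum fun _ e => e) ≤ N := MvPolynomial.le_totalDegree hm
    by_cases hs : s ∈ m.support
    · exact (Finset.single_le_sum (f := fun s => m s) (fun _ _ => Nat.zero_le _) hs).trans h1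
    · rw [Finsupp.notMem_support_iff.1 hs]
      exact Nat.zero_le _
  set φ : (σ →₀ ℕ) → (σ →₀ ℕ) := fun m =>
    Finsupp.equivFunOnFinite.symm (fun s => if S s then N - m s else m s) with hφ
  have hφi : ∀ m ∈ P.support, ∀ m' ∈ P.support, φ m = φ m' → m = m' := by
    intro m hm m' hm' h
    ext s
    have h1 := DFunLike.congr_fun h s
    simp only [hφ, Finsupp.coe_equivFunOnFinite_symm] at h1
    by_cases hs : S s
    · rw [if_pos hs, if_pos hs] at h1
      have := hle m hm s
      have := hle m' hm' s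
      omega
    · rw [if_neg hs, if_neg hs] at h1
      exact h1
  refine ⟨∑ m ∈ P.support, MvPolynomial.monomial (φ m) (P.coeff m), ?_, ?_⟩
  · intro h0
    obtain ⟨m₀, hm₀⟩ := MvPolynomial.ne_zero_iff.1 hP
    have h1 := congrArg (MvPolynomial.coeff (φ m₀)) h0
    rw [MvPolynomial.coeff_sum, MvPolynomial.coeff_zero, Finset.sum_eq_single m₀] at h1
    · rw [MvPolynomial.coeff_monomial, if_pos rfl] at h1
      exact hm₀ h1
    · intro m hm hne
      rw [MvPolynomial.coeff_monomial, if_neg]
      intro h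
      exact hne (hφi m hm m₀ (MvPolynomial.mem_support_iff.2 hm₀) h)
    · intro h
      exact absurd (MvPolynomial.mem_support_iff.2 hm₀) h
  · intro y y' h1 h2 h3
    have key : MvPolynomial.eval y' (∑ m ∈ P.support, MvPolynomial.monomial (φ m) (P.coeff m)) =
        (∏ s : σ, if S s then y' s ^ N else 1) * MvPolynomial.eval y P := by
      rw [map_sum, MvPolynomial.eval_eq', Finset.mul_sum]
      refine Finset.sum_congr rfl (fun m hm => ?_)
      rw [MvPolynomial.eval_monomial, Finsupp.prod_fintype _ _ (fun i => pow_zero _)]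
      rw [mul_left_comm, ← Finset.prod_mul_distrib]
      congr 1
      refine Finset.prod_congr rfl (fun s _ => ?_)
      simp only [hφ, Finsupp.coe_equivFunOnFinite_symm]
      by_cases hs : S s
      · rw [if_pos hs, if_pos hs]
        have h4 := hle m hm s
        have h5 : y' s ^ N = y' s ^ (N - m s) * y' s ^ (m s) := by
          rw [← pow_add]
          congr 1
          omega
        rw [h5, mul_assoc, ← mul_pow, h1 s hs, one_pow, mul_one]
      · rw [if_neg hs, if_neg hs, h2 s hs, one_mul]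
    rw [key, h3, mul_zero]

/-- a shift of the last variable and a renaming -/
lemma shift_ne {ι J : Type} {σ : ι → J} (hσ : Function.Injective σ) {s : J}
    (hs : s ∉ Set.range σ) (m : ℂ) {P : MvPolynomial (Option (ι ⊕ ι)) ℂ} (hP : P ≠ 0) :
    ∃ Q : MvPolynomial (J ⊕ J) ℂ, Q ≠ 0 ∧ ∀ y : J → ℂ,
      MvPolynomial.eval (env y) Q =
        MvPolynomial.eval (fun o => o.elim (y s + m) (env (fun i => y (σ i)))) P := by
  set τ : ℂ → (Option (ι ⊕ ι) → MvPolynomial (Option (ι ⊕ ι)) ℂ) := fun c o =>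
    o.elim (MvPolynomial.X none + MvPolynomial.C c) (fun i => MvPolynomial.X (some i)) with hτ
  set ρ : Option (ι ⊕ ι) → J ⊕ J := fun o => o.elim (.inl s) (Sum.map σ σ) with hρ
  have hρi : Function.Injective ρ := by
    intro a b h
    rcases a with _ | (a | a) <;> rcases b with _ | (b | b) <;>
      simp only [hρ, Option.elim_none, Option.elim_some, Sum.map_inl, Sum.map_inr,
        Sum.inl.injEq, Sum.inr.injEq, reduceCtorEq] at h
    · rfl
    · exact absurd ⟨b, h.symm⟩ hs
    · exact absurd ⟨a, h⟩ hs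
    · rw [hσ h]
    · rw [hσ h]
  have hinv : MvPolynomial.bind₁ (τ (-m)) (MvPolynomial.bind₁ (τ m) P) = P := by
    rw [MvPolynomial.bind₁_bind₁]
    have : (fun i => MvPolynomial.bind₁ (τ (-m)) (τ m i)) = MvPolynomial.X := by
      funext o
      rcases o with _ | o
      · simp only [hτ, Option.elim_none, map_add, MvPolynomial.bind₁_X_right,
          MvPolynomial.bind₁_C_right, map_neg]
        ring
      · simp only [hτ, Option.elim_some, MvPolynomial.bind₁_X_right]
    rw [this, MvPolynomial.bind₁_X_left]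
    rfl
  refine ⟨MvPolynomial.rename ρ (MvPolynomial.bind₁ (τ m) P), ?_, ?_⟩
  · intro h0
    apply hP
    rw [← hinv, (map_eq_zero_iff _ (MvPolynomial.rename_injective _ hρi)).1 h0, map_zero]
  · intro y
    rw [MvPolynomial.eval_rename]
    have h := MvPolynomial.eval₂Hom_bind₁ (RingHom.id ℂ) (env y ∘ ρ) (τ m) P
    change MvPolynomial.eval (env y ∘ ρ) (MvPolynomial.bind₁ (τ m) P) = _ at h
    rw [h]
    change MvPolynomial.eval (fun i => MvPolynomial.eval (env y ∘ ρ) (τ m i)) P = _
    congr 2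
    funext o
    rcases o with _ | (o | o)
    · simp [hτ, hρ, env]
    · simp [hτ, hρ, env]
    · simp [hτ, hρ, env]

end Pool.Agent.TH814.GD
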