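import Pool.Agent.TH814.GD.Thin
import Pool.Agent.TH814.GD.Chart
import Pool.Agent.TH814.GS.Final

set_option autoImplicit false

/-!
Local description of tuples of given transcendence degree by algebraic functions.
-/

namespace Pool.Agent.TH814.GD

open Filter Topology Set Module
open scoped Polynomial ContDiff
open Pool.Agent.TH814.GS

section

variable {E : Type} [NormedAddCommGroup E] [NormedSpace ℂ E] [FiniteDimensional ℂ E]

open Pool.Agent.W848.GF in
lemma impl3 {h : E × ℂ → ℂ} {p : E × ℂ} (hh : AnalyticAt ℂ h p) (h0 : h p = 0)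
    (h1 : fderiv ℂ h p (0, 1) ≠ 0) :
    ∃ ψ : E → ℂ, AnalyticAt ℂ ψ p.1 ∧ ψ p.1 = p.2 ∧ (∀ᶠ v in 𝓝 p, h v = 0 → ψ v.1 = v.2) ∧
      ∀ᶠ x in 𝓝 p.1, h (x, ψ x) = 0 := by
  have : CompleteSpace E := FiniteDimensional.complete ℂ E
  have hi : (fderiv ℂ h p ∘L .inr ℂ E ℂ).IsInvertible := by
    apply inv_of_ne
    exact h1
  have cdf : ContDiffAt ℂ ω h p := hh.contDiffAt
  have h1' : (ω : WithTop ℕ∞) ≠ 0 := by simp
  refine ⟨cdf.implicitFunction h1' hi, (cdf.contDiffAt_implicitFunction h1' hi).analyticAt,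
    cdf.implicitFunction_apply_self h1' hi, ?_, ?_⟩
  · filter_upwards [cdf.eventually_apply_eq_iff_implicitFunction h1' hi] with v hv h
    rw [h0] at hv
    exact hv.1 h
  · filter_upwards [cdf.eventually_apply_implicitFunction h1' hi] with x hx
    rw [hx, h0]

end

variable {n : ℕ}

lemma graph3 (I : Finset (Fin n)) (z : Fin n → ℂ) (H : Fin n → (↥I → ℂ) × ℂ → ℂ)
    (hH : ∀ j, j ∉ I → AnalyticAt ℂ (H j) (rs I z, z j))
    (h0 : ∀ j, j ∉ I → H j (rs I z, z j) = 0)
    (h1 : ∀ j, j ∉ I → fderiv ℂ (H j) (rs I z, z j) (0, 1) ≠ 0) :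
    ∃ Ψ : (↥I → ℂ) → (Fin n → ℂ), AnalyticAt ℂ Ψ (rs I z) ∧ Ψ (rs I z) = z ∧
      (∀ᶠ z' in 𝓝 z, (∀ j, j ∉ I → H j (rs I z', z' j) = 0) → Ψ (rs I z') = z') ∧
      (∀ x, ∀ i : ↥I, Ψ x i = x i) ∧
      ∀ᶠ x in 𝓝 (rs I z), ∀ j, j ∉ I → H j (x, Ψ x j) = 0 := by
  classical
  choose! ψ a1 a2 a3 a4 using fun (j : Fin n) (hj : j ∉ I) => impl3 (hH j hj) (h0 j hj) (h1 j hj)
  refine ⟨fun x j => if hj : j ∈ I then x ⟨j, hj⟩ else ψ j x, ?_, ?_, ?_, ?_, ?_⟩
  · rw [analyticAt_pi_iff]
    intro j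
    by_cases hj : j ∈ I
    · simp only [hj, dite_true]
      exact (ContinuousLinearMap.proj (R := ℂ) (φ := fun _ : ↥I => ℂ) ⟨j, hj⟩).analyticAt _
    · simp only [hj, dite_false]
      exact a1 j hj
  · funext j
    by_cases hj : j ∈ I
    · simp only [hj, dite_true]
      rfl
    · simp only [hj, dite_false]
      exact a2 j hj
  · have h2 : ∀ᶠ z' in 𝓝 z, ∀ j, j ∉ I → H j (rs I z', z' j) = 0 → ψ j (rs I z') = z' j := by
      rw [eventually_all]
      intro j
      by_cases hj : j ∈ I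
      · exact Eventually.of_forall (fun z' h => absurd hj h)
      · have hc : ContinuousAt (fun z' : Fin n → ℂ => (rs I z', z' j)) z :=
          ((rs_cont I).prodMk (continuous_apply j)).continuousAt
        filter_upwards [hc.eventually (a3 j hj)] with z' hz' _ h
        exact hz' h
    filter_upwards [h2] with z' hz' h
    funext j
    by_cases hj : j ∈ I
    · simp only [hj, dite_true]
      rfl
    · simp only [hj, dite_false]
      exact hz' j hj (h j hj)
  · intro x i
    simp only [i.2, dite_true]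
  · rw [eventually_all]
    intro j
    by_cases hj : j ∈ I
    · exact Eventually.of_forall (fun z' h => absurd hj h)
    · filter_upwards [a4 j hj] with x hx _
      simp only [hj, dite_false]
      exact hx

variable {F : Type} [Field F] [Algebra F ℂ]

/-- the function defined by a relation -/
noncomputable def HH {ι : Type} (P : (MvPolynomial ι F)[X]) (v : (ι → ℂ) × ℂ) : ℂ :=
  P.eval₂ (MvPolynomial.aeval v.1 : MvPolynomial ι F →ₐ[F] ℂ).toRingHom v.2

section

variable {ι : Type}

lemma HH_opt (P : (MvPolynomial ι F)[X]) (v : (ι → ℂ) × ℂ) :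
    HH P v = MvPolynomial.aeval (fun o : Option ι => o.elim v.2 v.1)
      ((MvPolynomial.optionEquivLeft F ι).symm P) := by
  have h : (MvPolynomial.aeval (fun o : Option ι => o.elim v.2 v.1) :
      MvPolynomial (Option ι) F →ₐ[F] ℂ).toRingHom =
      (Polynomial.eval₂RingHom (MvPolynomial.aeval v.1 :
        MvPolynomial ι F →ₐ[F] ℂ).toRingHom v.2).comp
        (MvPolynomial.optionEquivLeft F ι).toRingEquiv.toRingHom := by
    apply MvPolynomial.ringHom_ext
    · intro r
      simp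
    · intro i
      rcases i with _ | i
      · simp
      · simp
  have h2 := congrArg (fun φ : MvPolynomial (Option ι) F →+* ℂ =>
    φ ((MvPolynomial.optionEquivLeft F ι).symm P)) h
  refine Eq.trans ?_ h2.symm
  change _ = Polynomial.eval₂ _ _ ((MvPolynomial.optionEquivLeft F ι)
    ((MvPolynomial.optionEquivLeft F ι).symm P))
  rw [AlgEquiv.apply_symm_apply]
  rfl

lemma HH_an [Fintype ι] (P : (MvPolynomial ι F)[X]) : AnalyticOnNhd ℂ (HH P) univ := by
  have h : HH P = fun v => MvPolynomial.aeval (fun o : Option ι => o.elim v.2 v.1)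
      ((MvPolynomial.optionEquivLeft F ι).symm P) := funext (HH_opt P)
  rw [h]
  refine AnalyticOnNhd.aeval_mvPolynomial (A := F) ?_ _
  rintro (_ | i)
  · exact analyticOnNhd_snd
  · exact ((ContinuousLinearMap.proj (R := ℂ) (φ := fun _ : ι => ℂ) i).comp
      (ContinuousLinearMap.fst ℂ (ι → ℂ) ℂ)).analyticOnNhd _

lemma HH_fd [Fintype ι] (P : (MvPolynomial ι F)[X]) (x : ι → ℂ) (w : ℂ) :
    fderiv ℂ (HH P) (x, w) (0, 1) = HH (Polynomial.derivative P) (x, w) := by
  have h1 : HasFDerivAt (HH P) (fderiv ℂ (HH P) (x, w)) (x, w) :=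
    (HH_an P _ (mem_univ _)).differentiableAt.hasFDerivAt
  have h2 : HasDerivAt (fun w => HH P (x, w)) (fderiv ℂ (HH P) (x, w) (0, 1)) w :=
    h1.comp_hasDerivAt w ((hasDerivAt_const w x).prodMk (hasDerivAt_id w))
  have h3 : HasDerivAt (fun w => HH P (x, w)) (HH (Polynomial.derivative P) (x, w)) w := by
    have h4 := (P.map (MvPolynomial.aeval x : MvPolynomial ι F →ₐ[F] ℂ).toRingHom).hasDerivAt w
    have h5 : (fun w => HH P (x, w)) =
        fun w => (P.map (MvPolynomial.aeval x : MvPolynomial ι F →ₐ[F] ℂ).toRingHom).eval w := by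
      funext w
      unfold HH
      rw [Polynomial.eval_map]
    have h6 : (Polynomial.derivative (P.map (MvPolynomial.aeval x :
        MvPolynomial ι F →ₐ[F] ℂ).toRingHom)).eval w = HH (Polynomial.derivative P) (x, w) := by
      unfold HH
      rw [Polynomial.derivative_map, Polynomial.eval_map]
    rw [h5, ← h6]
    exact h4
  exact h2.unique h3

lemma poly_dense [Fintype ι] {U : Set (ι → ℂ)} (hU : IsOpen U) (hne : U.Nonempty)
    {P : MvPolynomial ι ℂ} (hP : P ≠ 0) : ∃ x ∈ U, MvPolynomial.eval x P ≠ 0 := by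
  obtain ⟨x, hx, h⟩ := env_dense hU hne (P := MvPolynomial.rename Sum.inl P) (fun h => hP
    ((map_eq_zero_iff _ (MvPolynomial.rename_injective _ Sum.inl_injective)).1 h))
  refine ⟨x, hx, ?_⟩
  rw [MvPolynomial.eval_rename] at h
  exact h

lemma const_alg2 [Fintype ι] {V : Set (ι → ℂ)} (hV : IsOpen V) (hne : V.Nonempty)
    {P : (MvPolynomial ι F)[X]} (hP : P ≠ 0) {c : ℂ}
    (h : ∀ x ∈ V, HH P (x, c) = 0) : IsAlgebraic F c := by
  by_contra hc
  have hinj : Function.Injective (Polynomial.aeval c : F[X] →ₐ[F] ℂ).toRingHom :=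
    transcendental_iff_injective.1 hc
  have hP' : (MvPolynomial.optionEquivLeft F ι).symm P ≠ 0 := fun h =>
    hP ((map_eq_zero_iff _ (MvPolynomial.optionEquivLeft F ι).symm.injective).1 h)
  have hQ : MvPolynomial.optionEquivRight F ι ((MvPolynomial.optionEquivLeft F ι).symm P) ≠ 0 :=
    fun h => hP' ((map_eq_zero_iff _ (MvPolynomial.optionEquivRight F ι).injective).1 h)
  have hQ' : MvPolynomial.map (Polynomial.aeval c : F[X] →ₐ[F] ℂ).toRingHom
      (MvPolynomial.optionEquivRight F ι ((MvPolynomial.optionEquivLeft F ι).symm P)) ≠ 0 :=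
    fun h => hQ ((map_eq_zero_iff _ (MvPolynomial.map_injective _ hinj)).1 h)
  obtain ⟨x, hx, hx0⟩ := poly_dense hV hne hQ'
  apply hx0
  rw [← h x hx, HH_opt]
  have h : (MvPolynomial.aeval (fun o : Option ι => o.elim c x) :
      MvPolynomial (Option ι) F →ₐ[F] ℂ).toRingHom =
      ((MvPolynomial.eval x).comp (MvPolynomial.map
        (Polynomial.aeval c : F[X] →ₐ[F] ℂ).toRingHom)).comp
        (MvPolynomial.optionEquivRight F ι).toRingEquiv.toRingHom := by
    apply MvPolynomial.ringHom_ext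
    · intro r
      simp
    · intro i
      rcases i with _ | i
      · simp
      · simp
  exact (congrArg (fun φ : MvPolynomial (Option ι) F →+* ℂ =>
    φ ((MvPolynomial.optionEquivLeft F ι).symm P)) h).symm

end

end Pool.Agent.TH814.GD
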