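import Pool.Agent.TH814.GD.AlgPiece

set_option autoImplicit false

/-!
Tuples of given transcendence degree: the exceptional set, assembly.
-/

namespace Pool.Agent.TH814.GD

open Filter Topology Set Module
open scoped Polynomial
open Pool.Agent.TH814.GS

variable {F : Type} [Field F] [Algebra F ℂ]

lemma indep_le (K : IntermediateField F ℂ) {σ : Type} [Fintype σ] {x : σ → ℂ}
    (hx : ∀ s, x s ∈ K) (h : AlgebraicIndependent F x) :
    (Fintype.card σ : Cardinal) ≤ Algebra.trdeg F K := by
  have h1 : AlgebraicIndependent F (fun s => (⟨x s, hx s⟩ : K)) := by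
    apply AlgebraicIndependent.of_comp K.val
    exact h
  have h2 := h1.lift_cardinalMk_le_trdeg
  rw [Cardinal.lift_id, Cardinal.lift_id, Cardinal.mk_fintype] at h2
  exact h2

lemma simple_rel {n : ℕ} {I : Finset (Fin n)} {z : Fin n → ℂ} {j : Fin n}
    (hI : AlgebraicIndependent F (rs I z))
    (h : ¬ AlgebraicIndependent F (fun o : Option ↥I => o.elim (z j) (rs I z))) :
    ∃ P : (MvPolynomial ↥I F)[X], P ≠ 0 ∧ HH P (rs I z, z j) = 0 ∧
      HH (Polynomial.derivative P) (rs I z, z j) ≠ 0 := by
  have : CharZero F := charZero_of F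
  obtain ⟨P, hP, hP0⟩ := exists_rel h
  refine simple_root (MvPolynomial.aeval (rs I z) : MvPolynomial ↥I F →ₐ[F] ℂ).toRingHom hI
    ⟨MvPolynomial.optionEquivLeft F ↥I P, ?_, ?_⟩
  · intro h0
    exact hP ((map_eq_zero_iff _ (MvPolynomial.optionEquivLeft F ↥I).injective).1 h0)
  · have h1 := HH_opt (MvPolynomial.optionEquivLeft F ↥I P) (rs I z, z j)
    rw [AlgEquiv.symm_apply_apply] at h1
    exact h1.trans hP0

lemma pc (R : Type) [CommRing R] [Countable R] : Countable R[X] := by
  rw [← Cardinal.mk_le_aleph0_iff]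
  refine (Polynomial.cardinalMk_le_max).trans ?_
  exact max_le (Cardinal.mk_le_aleph0_iff.2 inferInstance) le_rfl

theorem main_alg (hAL : Pool.Agent.W175.GF.S_GTD) (F : Type) [Field F] [Algebra F ℂ]
    [Countable F] (n m : ℕ) :
    Thin m {z : Fin n → ℂ |
      Algebra.trdeg F (IntermediateField.adjoin F (Set.range z)) ≤ ((m + 1 : ℕ) : Cardinal) ∧
      (∀ i j, i ≠ j → ∀ p q : ℚ, z i ≠ p * z j + q) ∧
      Algebra.trdeg F (IntermediateField.adjoin F
        (Set.range z ∪ Set.range fun i => Complex.Gamma (z i))) <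
          ((Nat.card {i // ¬ IsAlgebraic F (z i)} + (m + 1) : ℕ) : Cardinal)} := by
  classical
  have hsub : {z : Fin n → ℂ |
      Algebra.trdeg F (IntermediateField.adjoin F (Set.range z)) ≤ ((m + 1 : ℕ) : Cardinal) ∧
      (∀ i j, i ≠ j → ∀ p q : ℚ, z i ≠ p * z j + q) ∧
      Algebra.trdeg F (IntermediateField.adjoin F
        (Set.range z ∪ Set.range fun i => Complex.Gamma (z i))) <
          ((Nat.card {i // ¬ IsAlgebraic F (z i)} + (m + 1) : ℕ) : Cardinal)} ⊆
      ⋃ I : Finset (Fin n), ⋃ P : Fin n → (MvPolynomial ↥I F)[X],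
        ((⋃ (_ : I.card ≤ m), S3 I P) ∪ (⋃ T : Finset (Fin n),
          ⋃ Q : MvPolynomial (↥I ⊕ ↥T) F, ⋃ (_ : I.card = m + 1 ∧ Q ≠ 0), S4 I T P Q)) := by
    rintro z ⟨htr1, hz, htr2⟩
    set K' := IntermediateField.adjoin F (Set.range z) with hK'
    set K := IntermediateField.adjoin F (Set.range z ∪ Set.range fun i => Complex.Gamma (z i))
      with hK
    have hzK' : ∀ i, z i ∈ K' := fun i => IntermediateField.subset_adjoin _ _ ⟨i, rfl⟩
    have hzK : ∀ i, z i ∈ K := fun i => IntermediateField.subset_adjoin _ _ (Or.inl ⟨i, rfl⟩)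
    have hGK : ∀ i, Complex.Gamma (z i) ∈ K := fun i =>
      IntermediateField.subset_adjoin _ _ (Or.inr ⟨i, rfl⟩)
    obtain ⟨I, hI, hmax⟩ := Finset.exists_max_image
      (Finset.univ.filter (fun I : Finset (Fin n) => AlgebraicIndependent F (rs I z)))
      Finset.card ⟨∅, by
        rw [Finset.mem_filter]
        refine ⟨Finset.mem_univ _, ?_⟩
        have : IsEmpty ↥(∅ : Finset (Fin n)) :=
          ⟨fun i => absurd i.2 (Finset.notMem_empty _)⟩
        exact algebraicIndependent_empty_type⟩
    rw [Finset.mem_filter] at hI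
    have hPj : ∀ j, j ∉ I → ∃ P : (MvPolynomial ↥I F)[X], P ≠ 0 ∧ HH P (rs I z, z j) = 0 ∧
        HH (Polynomial.derivative P) (rs I z, z j) ≠ 0 := by
      intro j hj
      refine simple_rel hI.2 ?_
      intro h2
      have h3 := hmax (insert j I) (by
        rw [Finset.mem_filter]
        refine ⟨Finset.mem_univ _, ?_⟩
        have h4 : rs (insert j I) z = (fun o : Option ↥I => o.elim (z j) (rs I z)) ∘
            (fun i : ↥(insert j I) => if h : (i : Fin n) = j then none else
              some ⟨i, (Finset.mem_insert.1 i.2).resolve_left h⟩) := by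
          funext ⟨i, hi⟩
          by_cases h : i = j
          · subst h
            simp [rs]
          · simp [rs, h]
        rw [h4]
        refine h2.comp _ ?_
        rintro ⟨a, ha⟩ ⟨b, hb⟩ h
        by_cases h1 : a = j <;> by_cases h2 : b = j <;> simp_all)
      rw [Finset.card_insert_of_notMem hj] at h3
      omega
    choose! P hP using hPj
    have hS3 : z ∈ S3 I P := fun j hj => hP j hj
    have hcard : I.card ≤ m + 1 := by
      have h1 := (indep_le K' (fun i : ↥I => hzK' i) hI.2).trans htr1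
      rw [Fintype.card_coe] at h1
      exact_mod_cast h1
    refine mem_iUnion.2 ⟨I, mem_iUnion.2 ⟨P, ?_⟩⟩
    by_cases hIm : I.card ≤ m
    · exact Or.inl (mem_iUnion.2 ⟨hIm, hS3⟩)
    · right
      have hIc : I.card = m + 1 := by omega
      set T : Finset (Fin n) := Finset.univ.filter (fun i => ¬ IsAlgebraic F (z i)) with hT
      have hTc : T.card = Nat.card {i // ¬ IsAlgebraic F (z i)} := by
        rw [Nat.card_eq_fintype_card, Fintype.card_subtype]
      have hdep : ¬ AlgebraicIndependent F (gv I T z) := by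
        intro h
        have h1 := indep_le K (x := gv I T z) (by
          rintro (i | t)
          · exact hzK _
          · exact K.inv_mem (hGK _)) h
        have h2 := h1.trans_lt htr2
        rw [Fintype.card_sum, Fintype.card_coe, Fintype.card_coe, hTc, hIc] at h2
        have h3 : m + 1 + Nat.card {i // ¬ IsAlgebraic F (z i)} <
            Nat.card {i // ¬ IsAlgebraic F (z i)} + (m + 1) := by exact_mod_cast h2
        omega
      obtain ⟨Q, hQ, hQ0⟩ := exists_rel hdep
      refine mem_iUnion.2 ⟨T, mem_iUnion.2 ⟨Q, mem_iUnion.2 ⟨⟨hIc, hQ⟩, hS3, ?_, hz, hQ0⟩⟩⟩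
      intro t ht
      exact (Finset.mem_filter.1 ht).2
  refine Thin.mono ?_ hsub
  refine thin_union fun I => ?_
  have e1 : Countable (MvPolynomial ↥I F) := mvc _
  have e2 : Countable (MvPolynomial ↥I F)[X] := pc _
  refine thin_union fun P => ?_
  rw [union_eq_iUnion]
  refine thin_union fun b => ?_
  cases b
  · refine thin_union fun T => ?_
    have e3 : Countable (MvPolynomial (↥I ⊕ ↥T) F) := mvc _
    refine thin_union fun Q => thin_union fun h => S4_thin hAL h.1.le P h.2
  · exact thin_union fun hI => S3_thin I P hI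

end Pool.Agent.TH814.GD
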