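import Pool.Agent.TH814.GD.Chart

set_option autoImplicit false

/-!
The theorem of Ax-Schanuel type for `Γ` in codimension one.
-/

namespace Pool.Agent.TH814.GD

open Filter Topology Set Module
open Pool.Agent.TH814.GS

lemma g_mul {z : ℂ} (h : g z ≠ 0) : g z * Complex.Gamma z = 1 := by
  unfold g at h ⊢
  exact inv_mul_cancel₀ (fun h0 => h (by rw [h0, inv_zero]))

variable {E : Type} [NormedAddCommGroup E] [NormedSpace ℂ E]

lemma good {ν : Type} [Finite ν] {Ω : Set E} (hp : IsPreconnected Ω)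
    {u : ν → E → ℂ} (hu : ∀ i, AnalyticOnNhd ℂ (u i) Ω)
    (hne : ∀ i, ∀ v : ℂ, ¬ ∀ x ∈ Ω, u i x = v) {W : Set E} (hW : IsOpen W) (hWΩ : W ⊆ Ω)
    (hWne : W.Nonempty) : ∃ x ∈ W, ∀ i, g (u i x) ≠ 0 := by
  have : Fintype ν := Fintype.ofFinite ν
  obtain ⟨x, hx, h⟩ := nonzero_near hp (u := fun i x => g (u i x)) (fun i x hx =>
    (g_diff.analyticAt (u i x)).comp (hu i x hx)) (fun i => by
      by_contra hcon
      push Not at hcon
      obtain ⟨w, hw⟩ := hWne
      exact hne i (u i w) (fun x hx => countable_const hp (hu i).continuousOn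
        (Set.countable_range _) (fun y hy => g_zero (hcon y hy)) hx (hWΩ hw)))
    Finset.univ W hW hWΩ hWne
  exact ⟨x, hx, fun i => h i (Finset.mem_univ i)⟩

variable [FiniteDimensional ℂ E]

lemma good_chart {ν ι : Type} [Finite ν] [Finite ι] {Ω : Set E} (hΩ : IsOpen Ω)
    (hp : IsPreconnected Ω)
    {u : ν → E → ℂ} (hu : ∀ i, AnalyticOnNhd ℂ (u i) Ω)
    (hne : ∀ i, ∀ v : ℂ, ¬ ∀ x ∈ Ω, u i x = v) {a : ι → ν} {x₀ : E} (hx₀ : x₀ ∈ Ω)
    (hli : LinearIndependent ℂ (fun i => fderiv ℂ (u (a i)) x₀)) :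
    ∃ (x₁ : E) (J : Type) (_ : Fintype J) (σ : ι → J) (V : Set (J → ℂ)) (Λ : (J → ℂ) → E)
      (Φ : E → (J → ℂ)), x₁ ∈ Ω ∧ Function.Injective σ ∧ IsOpen V ∧ IsPreconnected V ∧
      V.Nonempty ∧ AnalyticOnNhd ℂ Λ V ∧ (∀ y ∈ V, Λ y ∈ Ω ∧ ∀ i, g (u i (Λ y)) ≠ 0) ∧
      (∀ y ∈ V, ∀ i, u (a i) (Λ y) = y (σ i)) ∧ ∀ᶠ x in 𝓝 x₁, Φ x ∈ V ∧ Λ (Φ x) = x := by
  have : CompleteSpace E := FiniteDimensional.complete ℂ E
  have hc : ContinuousAt (fun x : E => (fun i => fderiv ℂ (u (a i)) x)) x₀ :=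
    continuousAt_pi.2 fun i => (hu (a i)).fderiv.continuousOn.continuousAt (hΩ.mem_nhds hx₀)
  have hev : ∀ᶠ x in 𝓝 x₀, x ∈ Ω ∧ LinearIndependent ℂ (fun i => fderiv ℂ (u (a i)) x) :=
    (hΩ.eventually_mem hx₀).and (hc.eventually hli.eventually)
  obtain ⟨ε, hε, hball⟩ := Metric.eventually_nhds_iff_ball.1 hev
  obtain ⟨x₁, hx₁, hg⟩ := good hp hu hne (W := Metric.ball x₀ ε) Metric.isOpen_ball
    (fun x hx => (hball x hx).1) ⟨_, Metric.mem_ball_self hε⟩
  have hx₁Ω := (hball x₁ hx₁).1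
  have hev' : ∀ᶠ x in 𝓝 x₁, x ∈ Ω ∧ ∀ i, g (u i x) ≠ 0 := by
    refine (hΩ.eventually_mem hx₁Ω).and ?_
    rw [eventually_all]
    intro i
    exact (g_diff.continuous.continuousAt.comp
      (hu i x₁ hx₁Ω).continuousAt).eventually_ne (hg i)
  obtain ⟨δ, hδ, hball'⟩ := Metric.eventually_nhds_iff_ball.1 hev'
  obtain ⟨J, i1, σ, V, Λ, Φ, h1, h2, h3, h4, h5, h6, h7, h8⟩ := chart
    (f := fun i => u (a i)) (x₀ := x₁) (U := Metric.ball x₁ δ) Metric.isOpen_ball
    (Metric.mem_ball_self hδ) (fun i => hu (a i) x₁ hx₁Ω) (hball x₁ hx₁).2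
  exact ⟨x₁, J, i1, σ, V, Λ, Φ, hx₁Ω, h1, h2, h3, h4, h5, fun y hy => hball' _ (h6 y hy), h7, h8⟩

/-- the values of the functions and of `Γ` at them -/
noncomputable def vals {ι : Type} (x : ι → ℂ) : ι ⊕ ι → ℂ :=
  Sum.elim x (fun i => Complex.Gamma (x i))

lemma core0 {ν ι : Type} [Finite ν] [Fintype ι] {Ω : Set E} (hΩ : IsOpen Ω)
    (hp : IsPreconnected Ω)
    {u : ν → E → ℂ} (hu : ∀ i, AnalyticOnNhd ℂ (u i) Ω)
    (hne : ∀ i, ∀ v : ℂ, ¬ ∀ x ∈ Ω, u i x = v) {a : ι → ν} {x₀ : E} (hx₀ : x₀ ∈ Ω)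
    (hli : LinearIndependent ℂ (fun i => fderiv ℂ (u (a i)) x₀))
    {P : MvPolynomial (ι ⊕ ι) ℂ} (hP : P ≠ 0)
    (h : ∀ x ∈ Ω, (∀ i, g (u i x) ≠ 0) → MvPolynomial.eval (vals fun i => u (a i) x) P = 0) :
    False := by
  classical
  obtain ⟨x₁, J, i1, σ, V, Λ, Φ, h0, h1, h2, h3, h4, h5, h6, h7, h8⟩ :=
    good_chart hΩ hp hu hne hx₀ hli
  obtain ⟨P', hP', hPP⟩ := invert (fun s => ∃ i, s = Sum.inr i) P hP
  have hQ : MvPolynomial.rename (Sum.map σ σ) P' ≠ 0 := fun h =>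
    hP' ((map_eq_zero_iff _ (MvPolynomial.rename_injective _
      (Function.Injective.sumMap h1 h1))).1 h)
  obtain ⟨y, hy, hy0⟩ := env_dense h2 h4 hQ
  apply hy0
  rw [MvPolynomial.eval_rename]
  refine hPP _ _ ?_ ?_ (h (Λ y) (h6 y hy).1 (h6 y hy).2)
  · rintro s ⟨i, rfl⟩
    change g (y (σ i)) * Complex.Gamma (u (a i) (Λ y)) = 1
    rw [h7 y hy i]
    apply g_mul
    rw [← h7 y hy i]
    exact (h6 y hy).2 _
  · rintro (i | i) hs
    · exact (h7 y hy i).symm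
    · exact absurd ⟨i, rfl⟩ hs

lemma core {ν ι : Type} [Finite ν] [Fintype ι] {Ω : Set E} (hΩ : IsOpen Ω)
    (hp : IsPreconnected Ω)
    {u : ν → E → ℂ} (hu : ∀ i, AnalyticOnNhd ℂ (u i) Ω)
    (hne : ∀ i, ∀ v : ℂ, ¬ ∀ x ∈ Ω, u i x = v) {a : ι → ν} {x₀ : E} (hx₀ : x₀ ∈ Ω)
    (hli : LinearIndependent ℂ (fun i => fderiv ℂ (u (a i)) x₀)) {j : ν}
    (hj : ∀ i, ∀ m : ℤ, ¬ ∀ x ∈ Ω, u j x = u (a i) x + m)
    {P₁ P₂ : MvPolynomial (Option (ι ⊕ ι)) ℂ} (hP₁ : P₁ ≠ 0) (hP₂ : P₂ ≠ 0)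
    (hr₁ : ∀ x ∈ Ω, (∀ i, g (u i x) ≠ 0) →
      MvPolynomial.eval (fun o => o.elim (u j x) (vals fun i => u (a i) x)) P₁ = 0)
    (hr₂ : ∀ x ∈ Ω, (∀ i, g (u i x) ≠ 0) →
      MvPolynomial.eval (fun o => o.elim (Complex.Gamma (u j x)) (vals fun i => u (a i) x)) P₂ =
        0) : False := by
  classical
  obtain ⟨x₁, J, i1, σ, V, Λ, Φ, h0, h1, h2, h3, h4, h5, h6, h7, h8⟩ :=
    good_chart hΩ hp hu hne hx₀ hli
  obtain ⟨P₁', hP₁', hPP₁⟩ := invert (fun s => ∃ i, s = some (Sum.inr i)) P₁ hP₁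
  obtain ⟨P₂', hP₂', hPP₂⟩ := invert (fun s => s = none ∨ ∃ i, s = some (Sum.inr i)) P₂ hP₂
  have hinj : Function.Injective (Option.map (Sum.map σ σ)) :=
    Option.map_injective (Function.Injective.sumMap h1 h1)
  have hψ : AnalyticOnNhd ℂ (fun y => u j (Λ y)) V := fun y hy =>
    (hu j _ (h6 y hy).1).comp (h5 y hy)
  have hgm : ∀ y ∈ V, ∀ i, g (y (σ i)) * Complex.Gamma (u (a i) (Λ y)) = 1 := by
    intro y hy i
    rw [h7 y hy i]
    apply g_mul
    rw [← h7 y hy i]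
    exact (h6 y hy).2 _
  have hz₁ : ∀ y ∈ V, MvPolynomial.eval
      (fun o => o.elim (u j (Λ y)) (env (fun i => y (σ i)))) P₁' = 0 := by
    intro y hy
    refine hPP₁ _ _ ?_ ?_ (hr₁ (Λ y) (h6 y hy).1 (h6 y hy).2)
    · rintro s ⟨i, rfl⟩
      exact hgm y hy i
    · rintro (_ | (i | i)) hs
      · rfl
      · exact (h7 y hy i).symm
      · exact absurd ⟨i, rfl⟩ hs
  have hz₂ : ∀ y ∈ V, MvPolynomial.eval
      (fun o => o.elim (g (u j (Λ y))) (env (fun i => y (σ i)))) P₂' = 0 := by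
    intro y hy
    refine hPP₂ _ _ ?_ ?_ (hr₂ (Λ y) (h6 y hy).1 (h6 y hy).2)
    · rintro s (rfl | ⟨i, rfl⟩)
      · exact g_mul ((h6 y hy).2 j)
      · exact hgm y hy i
    · rintro (_ | (i | i)) hs
      · exact absurd (Or.inl rfl) hs
      · exact (h7 y hy i).symm
      · exact absurd (Or.inr ⟨i, rfl⟩) hs
  have hren : ∀ (w : ℂ) (y : J → ℂ) (P : MvPolynomial (Option (ι ⊕ ι)) ℂ),
      MvPolynomial.eval (fun o => o.elim w (env y))
        (MvPolynomial.rename (Option.map (Sum.map σ σ)) P) =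
      MvPolynomial.eval (fun o => o.elim w (env (fun i => y (σ i)))) P := by
    intro w y P
    rw [MvPolynomial.eval_rename]
    congr 2
    funext o
    rcases o with _ | (o | o) <;> rfl
  have hprop : ∀ q : E → ℂ, AnalyticOnNhd ℂ q Ω → (∀ᶠ x in 𝓝 x₁, q x = 0) →
      ∀ x ∈ Ω, q x = 0 := fun q hq hq0 x hx =>
    hq.eqOn_zero_of_preconnected_of_eventuallyEq_zero hp h0 hq0 hx
  rcases codim h2 h3 hψ (P₁ := MvPolynomial.rename (Option.map (Sum.map σ σ)) P₁')
    (P₂ := MvPolynomial.rename (Option.map (Sum.map σ σ)) P₂')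
    (fun h => hP₁' ((map_eq_zero_iff _ (MvPolynomial.rename_injective _ hinj)).1 h))
    (fun h => hP₂' ((map_eq_zero_iff _ (MvPolynomial.rename_injective _ hinj)).1 h))
    (fun y hy => by rw [hren]; exact hz₁ y hy)
    (fun y hy => by rw [hren]; exact hz₂ y hy) with ⟨c, hc⟩ | ⟨s, m, hm⟩
  · apply hne j c
    intro x hx
    refine sub_eq_zero.1 (hprop (fun x => u j x - c) ((hu j).sub analyticOnNhd_const) ?_ x hx)
    filter_upwards [h8] with x' hx'
    have := hc _ hx'.1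
    rw [hx'.2] at this
    rw [this, sub_self]
  · by_cases hs : s ∈ Set.range σ
    · obtain ⟨i, rfl⟩ := hs
      apply hj i m
      intro x hx
      refine sub_eq_zero.1 (hprop (fun x => u j x - (u (a i) x + m))
        ((hu j).sub ((hu (a i)).add analyticOnNhd_const)) ?_ x hx)
      filter_upwards [h8] with x' hx'
      have e1 := hm _ hx'.1
      have e2 := h7 _ hx'.1 i
      rw [hx'.2] at e1 e2
      rw [e1, e2, sub_self]
    · obtain ⟨Q, hQ, hQe⟩ := shift_ne h1 hs (m : ℂ) hP₁'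
      obtain ⟨y, hy, hy0⟩ := env_dense h2 h4 hQ
      apply hy0
      rw [hQe, ← hm y hy]
      exact hz₁ y hy

lemma g_ne_of {z : ℂ} (h : g z ≠ 0) (m : ℕ) : z ≠ -m := by
  intro hm
  apply h
  unfold g
  rw [hm, Complex.Gamma_neg_nat_eq_zero, inv_zero]

theorem ax {n r : ℕ} {Ω : Set E} {f : Fin n → E → ℂ} (hΩ : IsOpen Ω)
    (hp : IsPreconnected Ω) (hf : ∀ i, AnalyticOnNhd ℂ (f i) Ω)
    (hne : ∀ i, ∀ v : ℂ, ¬ ∀ x ∈ Ω, f i x = v)
    (hd : ∀ i j, i ≠ j → ∀ m : ℤ, ¬ ∀ x ∈ Ω, f i x = f j x + m)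
    (hr : ∃ x ∈ Ω, finrank ℂ (Submodule.span ℂ (Set.range fun i => fderiv ℂ (f i) x)) = r) :
    ∃ e : Fin (min n (r + 1) + r) → Fin n ⊕ Fin n, Function.Injective e ∧
      ∀ P : MvPolynomial (Fin (min n (r + 1) + r)) ℂ, P ≠ 0 →
        ∃ x ∈ Ω, (∀ i, ∀ m : ℕ, f i x ≠ -m) ∧
          MvPolynomial.eval (fun k => vals (fun i => f i x) (e k)) P ≠ 0 := by
  classical
  obtain ⟨x₀, hx₀, hr⟩ := hr
  obtain ⟨a, hli⟩ : ∃ a : Fin r → Fin n,
      LinearIndependent ℂ (fun i => fderiv ℂ (f (a i)) x₀) := by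
    subst hr
    obtain ⟨b, hb, -, hbl⟩ := Submodule.exists_fun_fin_finrank_span_eq ℂ
      (Set.range fun i => fderiv ℂ (f i) x₀)
    choose a ha using hb
    refine ⟨a, ?_⟩
    have : (fun i => fderiv ℂ (f (a i)) x₀) = b := funext ha
    rw [this]
    exact hbl
  have hai : Function.Injective a := by
    intro i j h
    apply hli.injective
    simp only [h]
  have hle : r ≤ n := by
    have := Fintype.card_le_of_injective a hai
    rwa [Fintype.card_fin, Fintype.card_fin] at this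
  by_cases hrn : r < n
  · obtain ⟨j, hj⟩ : ∃ j, j ∉ Set.range a := by
      by_contra hcon
      push Not at hcon
      have := Fintype.card_le_of_surjective a hcon
      rw [Fintype.card_fin, Fintype.card_fin] at this
      omega
    have hcard : Fintype.card (Fin (min n (r + 1) + r)) =
        Fintype.card (Option (Fin r ⊕ Fin r)) := by
      rw [Fintype.card_fin, Fintype.card_option, Fintype.card_sum, Fintype.card_fin]
      omega
    have q := Fintype.equivOfCardEq hcard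
    have hε₁ : Function.Injective
        (fun o : Option (Fin r ⊕ Fin r) => o.elim (Sum.inl j) (Sum.map a a)) := by
      intro x y h
      rcases x with _ | (x | x) <;> rcases y with _ | (y | y) <;>
        simp only [Option.elim_none, Option.elim_some, Sum.map_inl, Sum.map_inr,
          Sum.inl.injEq, Sum.inr.injEq, reduceCtorEq] at h
      · rfl
      · exact absurd ⟨y, h.symm⟩ hj
      · exact absurd ⟨x, h⟩ hj
      · rw [hai h]
      · rw [hai h]
    have hε₂ : Function.Injective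
        (fun o : Option (Fin r ⊕ Fin r) => o.elim (Sum.inr j) (Sum.map a a)) := by
      intro x y h
      rcases x with _ | (x | x) <;> rcases y with _ | (y | y) <;>
        simp only [Option.elim_none, Option.elim_some, Sum.map_inl, Sum.map_inr,
          Sum.inl.injEq, Sum.inr.injEq, reduceCtorEq] at h
      · rfl
      · exact absurd ⟨y, h.symm⟩ hj
      · rw [hai h]
      · exact absurd ⟨x, h⟩ hj
      · rw [hai h]
    by_contra hcon
    push Not at hcon
    obtain ⟨P₁, hP₁, hv₁⟩ := hcon _ (hε₁.comp q.injective)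
    obtain ⟨P₂, hP₂, hv₂⟩ := hcon _ (hε₂.comp q.injective)
    refine core hΩ hp hf hne hx₀ hli (j := j) ?_
      (P₁ := MvPolynomial.rename q P₁) (P₂ := MvPolynomial.rename q P₂)
      (fun h => hP₁ ((map_eq_zero_iff _ (MvPolynomial.rename_injective _ q.injective)).1 h))
      (fun h => hP₂ ((map_eq_zero_iff _ (MvPolynomial.rename_injective _ q.injective)).1 h))
      ?_ ?_
    · intro i m
      exact hd j (a i) (fun h => hj ⟨i, h.symm⟩) m
    · intro x hx hg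
      rw [MvPolynomial.eval_rename]
      rw [← hv₁ x hx (fun i m => g_ne_of (hg i) m)]
      congr 2
      funext k
      simp only [Function.comp_apply]
      rcases q k with _ | (o | o) <;> rfl
    · intro x hx hg
      rw [MvPolynomial.eval_rename]
      rw [← hv₂ x hx (fun i m => g_ne_of (hg i) m)]
      congr 2
      funext k
      simp only [Function.comp_apply]
      rcases q k with _ | (o | o) <;> rfl
  · have hcard : Fintype.card (Fin (min n (r + 1) + r)) = Fintype.card (Fin r ⊕ Fin r) := by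
      rw [Fintype.card_fin, Fintype.card_sum, Fintype.card_fin]
      omega
    have q := Fintype.equivOfCardEq hcard
    by_contra hcon
    push Not at hcon
    obtain ⟨P, hP, hv⟩ := hcon _ ((Function.Injective.sumMap hai hai).comp q.injective)
    refine core0 hΩ hp hf hne hx₀ hli (P := MvPolynomial.rename q P)
      (fun h => hP ((map_eq_zero_iff _ (MvPolynomial.rename_injective _ q.injective)).1 h)) ?_
    intro x hx hg
    rw [MvPolynomial.eval_rename]
    rw [← hv x hx (fun i m => g_ne_of (hg i) m)]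
    congr 2
    funext k
    simp only [Function.comp_apply]
    rcases q k with o | o <;> rfl

end Pool.Agent.TH814.GD
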