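import Pool.Agent.TH814.GD.Piece

set_option autoImplicit false

/-!
The set of tuples of low transcendence degree.
-/

namespace Pool.Agent.TH814.GD

open Filter Topology Set Module
open scoped ENNReal Polynomial
open Pool.Agent.TH814.GS

variable {F : Type} [Field F] [Algebra F ℂ]

omit [Algebra F ℂ] in
lemma mvc (σ : Type) [Countable σ] [Countable F] : Countable (MvPolynomial σ F) := by
  rw [← Cardinal.mk_le_aleph0_iff]
  refine (MvPolynomial.cardinalMk_le_max).trans ?_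
  have h1 : Cardinal.mk F ≤ Cardinal.aleph0 := Cardinal.mk_le_aleph0_iff.2 inferInstance
  have h2 : Cardinal.mk σ ≤ Cardinal.aleph0 := Cardinal.mk_le_aleph0_iff.2 inferInstance
  exact max_le (max_le h1 h2) le_rfl

lemma exists_rel {σ : Type} {x : σ → ℂ} (h : ¬ AlgebraicIndependent F x) :
    ∃ P : MvPolynomial σ F, P ≠ 0 ∧ MvPolynomial.aeval x P = 0 := by
  rw [algebraicIndependent_iff] at h
  push Not at h
  obtain ⟨Q, hQ, hQ0⟩ := h
  exact ⟨Q, hQ0, hQ⟩

variable {n : ℕ}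

/-- auxiliary reindexing -/
def rei (I : Finset (Fin n)) (j : Fin n) :
    ↥(insert j I) ⊕ ↥(insert j I) → Fin 2 ⊕ (↥I ⊕ ↥I)
  | .inl i => if h : (i : Fin n) = j then .inl 0 else
      .inr (.inl ⟨i, (Finset.mem_insert.1 i.2).resolve_left h⟩)
  | .inr i => if h : (i : Fin n) = j then .inl 1 else
      .inr (.inr ⟨i, (Finset.mem_insert.1 i.2).resolve_left h⟩)

lemma rei_inj (I : Finset (Fin n)) (j : Fin n) : Function.Injective (rei I j) := by
  rintro (⟨a, ha⟩ | ⟨a, ha⟩) (⟨b, hb⟩ | ⟨b, hb⟩) h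
  · by_cases h1 : a = j <;> by_cases h2 : b = j <;> simp_all [rei]
  · by_cases h1 : a = j <;> by_cases h2 : b = j <;> simp_all [rei]
  · by_cases h1 : a = j <;> by_cases h2 : b = j <;> simp_all [rei]
  · by_cases h1 : a = j <;> by_cases h2 : b = j <;> simp_all [rei]

lemma rei_env (I : Finset (Fin n)) (j : Fin n) (z : Fin n → ℂ) :
    (Sum.elim ![z j, g (z j)] (env (rs I z))) ∘ rei I j = env (rs (insert j I) z) := by
  funext i
  rcases i with ⟨a, ha⟩ | ⟨a, ha⟩
  · by_cases h : a = j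
    · subst h
      simp [rei, env, rs]
    · simp [rei, env, rs, h]
  · by_cases h : a = j
    · subst h
      simp [rei, env, rs]
    · simp [rei, env, rs, h]

lemma indep_insert {I : Finset (Fin n)} {j : Fin n} {z : Fin n → ℂ}
    (h : AlgebraicIndependent F (Sum.elim ![z j, g (z j)] (env (rs I z)))) :
    AlgebraicIndependent F (env (rs (insert j I) z)) := by
  rw [← rei_env]
  exact h.comp _ (rei_inj I j)

lemma env_mem (K : IntermediateField F ℂ) {I : Finset (Fin n)} {z : Fin n → ℂ}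
    (hz : ∀ i, z i ∈ K) (hG : ∀ i, Complex.Gamma (z i) ∈ K) (i : ↥I ⊕ ↥I) :
    env (rs I z) i ∈ K := by
  rcases i with i | i
  · exact hz _
  · exact K.inv_mem (hG _)

lemma indep_card (K : IntermediateField F ℂ) {I : Finset (Fin n)} {z : Fin n → ℂ}
    (hz : ∀ i, z i ∈ K) (hG : ∀ i, Complex.Gamma (z i) ∈ K) {d : ℕ} (hK : Algebra.trdeg F K ≤ d)
    (h : AlgebraicIndependent F (env (rs I z))) : 2 * I.card ≤ d := by
  set v : ↥I ⊕ ↥I → K := fun i => ⟨env (rs I z) i, env_mem K hz hG i⟩ with hv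
  have h1 : AlgebraicIndependent F v := by
    apply AlgebraicIndependent.of_comp K.val
    exact h
  have h2 := h1.lift_cardinalMk_le_trdeg
  have h3 : Cardinal.mk (↥I ⊕ ↥I) = ((2 * I.card : ℕ) : Cardinal) := by
    rw [Cardinal.mk_fintype]
    congr 1
    rw [Fintype.card_sum, Fintype.card_coe]
    ring
  rw [Cardinal.lift_id, Cardinal.lift_id, h3] at h2
  exact_mod_cast h2.trans hK

lemma rel_last (K : IntermediateField F ℂ) {I : Finset (Fin n)} {z : Fin n → ℂ}
    (hz : ∀ i, z i ∈ K) (hG : ∀ i, Complex.Gamma (z i) ∈ K) {d : ℕ} (hK : Algebra.trdeg F K ≤ d)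
    (hd : d ≤ 2 * I.card) {a : ℂ} (ha : a ∈ K) :
    ∃ P : MvPolynomial (Option (↥I ⊕ ↥I)) F, P ≠ 0 ∧
      MvPolynomial.aeval (fun o => o.elim a (env (rs I z))) P = 0 := by
  apply exists_rel
  intro h
  set v : Option (↥I ⊕ ↥I) → K := fun o =>
    o.elim ⟨a, ha⟩ (fun i => ⟨env (rs I z) i, env_mem K hz hG i⟩) with hv
  have h1 : AlgebraicIndependent F v := by
    apply AlgebraicIndependent.of_comp K.val
    have : K.val ∘ v = fun o => o.elim a (env (rs I z)) := by
      funext o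
      rcases o with _ | o <;> rfl
    rw [this]
    exact h
  have h2 := h1.lift_cardinalMk_le_trdeg
  have h3 : Cardinal.mk (Option (↥I ⊕ ↥I)) = ((2 * I.card + 1 : ℕ) : Cardinal) := by
    rw [Cardinal.mk_fintype]
    congr 1
    rw [Fintype.card_option, Fintype.card_sum, Fintype.card_coe]
    ring
  rw [Cardinal.lift_id, Cardinal.lift_id, h3] at h2
  have h4 : 2 * I.card + 1 ≤ d := by exact_mod_cast h2.trans hK
  omega

theorem main (F : Type) [Field F] [Algebra F ℂ] [Countable F] (n m : ℕ) :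
    Thin m {z : Fin n → ℂ | (∃ J : Finset (Fin n), J.card = m + 2 ∧ ∀ j ∈ J, z j ∉ NN F) ∧
      (∀ i j, i ≠ j → ∀ k : ℤ, z i ≠ z j + k) ∧
      Algebra.trdeg F (IntermediateField.adjoin F
        (Set.range z ∪ Set.range fun i => Complex.Gamma (z i))) ≤ ((2 * m + 2 : ℕ) : Cardinal)} := by
  classical
  have hsub : {z : Fin n → ℂ | (∃ J : Finset (Fin n), J.card = m + 2 ∧ ∀ j ∈ J, z j ∉ NN F) ∧
      (∀ i j, i ≠ j → ∀ k : ℤ, z i ≠ z j + k) ∧
      Algebra.trdeg F (IntermediateField.adjoin F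
        (Set.range z ∪ Set.range fun i => Complex.Gamma (z i))) ≤ ((2 * m + 2 : ℕ) : Cardinal)} ⊆
      ⋃ I : Finset (Fin n), ⋃ P : Fin n → MvPolynomial (Fin 2 ⊕ (↥I ⊕ ↥I)) F, ⋃ k : Fin n → ℕ,
        ((⋃ (_ : I.card ≤ m), S1 I P k) ∪ (⋃ j : Fin n, ⋃ P₁ : MvPolynomial (Option (↥I ⊕ ↥I)) F,
          ⋃ P₂ : MvPolynomial (Option (↥I ⊕ ↥I)) F,
            ⋃ (_ : I.card = m + 1 ∧ j ∉ I ∧ P₁ ≠ 0 ∧ P₂ ≠ 0), S2 I P k j P₁ P₂)) := by
    rintro z ⟨⟨J, hJ, hJN⟩, hz, htr⟩
    set K := IntermediateField.adjoin F (Set.range z ∪ Set.range fun i => Complex.Gamma (z i))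
      with hK
    have hzK : ∀ i, z i ∈ K := fun i => IntermediateField.subset_adjoin _ _ (Or.inl ⟨i, rfl⟩)
    have hGK : ∀ i, Complex.Gamma (z i) ∈ K := fun i =>
      IntermediateField.subset_adjoin _ _ (Or.inr ⟨i, rfl⟩)
    obtain ⟨I, hI, hmax⟩ := Finset.exists_max_image
      (Finset.univ.filter (fun I : Finset (Fin n) => AlgebraicIndependent F (env (rs I z))))
      Finset.card ⟨∅, by
        rw [Finset.mem_filter]
        refine ⟨Finset.mem_univ _, ?_⟩
        have : IsEmpty (↥(∅ : Finset (Fin n)) ⊕ ↥(∅ : Finset (Fin n))) := by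
          rw [isEmpty_sum]
          exact ⟨⟨fun i => absurd i.2 (Finset.notMem_empty _)⟩,
            ⟨fun i => absurd i.2 (Finset.notMem_empty _)⟩⟩
        exact algebraicIndependent_empty_type⟩
    rw [Finset.mem_filter] at hI
    have hPj : ∀ j, j ∉ I → ∃ (P : MvPolynomial (Fin 2 ⊕ (↥I ⊕ ↥I)) F) (k : ℕ),
        Dv (GG P) (0, 1) k (rs I z, z j) = 0 ∧ Dv (GG P) (0, 1) (k + 1) (rs I z, z j) ≠ 0 := by
      intro j hj
      have h1 : ¬ AlgebraicIndependent F (Sum.elim ![z j, g (z j)] (env (rs I z))) := by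
        intro h2
        have h3 := hmax (insert j I) (by
          rw [Finset.mem_filter]
          exact ⟨Finset.mem_univ _, indep_insert h2⟩)
        rw [Finset.card_insert_of_notMem hj] at h3
        omega
      obtain ⟨P, hP, hP0⟩ := exists_rel h1
      obtain ⟨k, hk⟩ := mult (GG_an P) (x := rs I z) (w₀ := z j) hP0 (GG_ne hI.2 hP)
      exact ⟨P, k, hk⟩
    choose! P k hPk using hPj
    have hS1 : z ∈ S1 I P k := fun j hj => hPk j hj
    have hcard := indep_card K hzK hGK htr hI.2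
    refine mem_iUnion.2 ⟨I, mem_iUnion.2 ⟨P, mem_iUnion.2 ⟨k, ?_⟩⟩⟩
    by_cases hIm : I.card ≤ m
    · exact Or.inl (mem_iUnion.2 ⟨hIm, hS1⟩)
    · right
      have hIc : I.card = m + 1 := by omega
      obtain ⟨j, hjJ, hjI⟩ := Finset.exists_mem_notMem_of_card_lt_card
        (show I.card < J.card by omega)
      obtain ⟨P₁, b1, b2⟩ := rel_last K hzK hGK htr (I := I) (by omega) (hzK j)
      obtain ⟨P₂, c1, c2⟩ := rel_last K hzK hGK htr (I := I) (by omega) (a := g (z j))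
        (K.inv_mem (hGK j))
      refine mem_iUnion.2 ⟨j, mem_iUnion.2 ⟨P₁, mem_iUnion.2 ⟨P₂, mem_iUnion.2
        ⟨⟨hIc, hjI, b1, c1⟩, hS1, b2, c2, hJN j hjJ, ?_⟩⟩⟩⟩
      intro i hij l
      exact hz j i hij.symm l
  refine Thin.mono ?_ hsub
  refine thin_union fun I => ?_
  have e1 : Countable (MvPolynomial (Fin 2 ⊕ (↥I ⊕ ↥I)) F) := mvc _
  have e2 : Countable (MvPolynomial (Option (↥I ⊕ ↥I)) F) := mvc _
  refine thin_union fun P => thin_union fun k => ?_
  rw [union_eq_iUnion]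
  refine thin_union fun b => ?_
  cases b
  · refine thin_union fun j => thin_union fun P₁ => thin_union fun P₂ => thin_union fun h => ?_
    obtain ⟨h1, h2, h3, h4⟩ := h
    exact S2_thin h1.le P k h2 h3 h4
  · exact thin_union fun hI => S1_thin I P k hI

end Pool.Agent.TH814.GD
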