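import Pool.Agent.TH814.GD.Alg
import Pool.Agent.TH814.GD.Exc
import Pool.Agent.TH814.GD.Ax
import Pool.Agent.W175.GF.Stm2

set_option autoImplicit false

/-!
Tuples of given transcendence degree: the exceptional set.
-/

namespace Pool.Agent.TH814.GD

open Filter Topology Set Module
open scoped Polynomial
open Pool.Agent.TH814.GS

variable {F : Type} [Field F] [Algebra F ℂ] {n : ℕ}

/-- points on given graphs of algebraic functions -/
def S3 (I : Finset (Fin n)) (P : Fin n → (MvPolynomial ↥I F)[X]) : Set (Fin n → ℂ) :=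
  {z | ∀ j, j ∉ I → P j ≠ 0 ∧ HH (P j) (rs I z, z j) = 0 ∧
    HH (Polynomial.derivative (P j)) (rs I z, z j) ≠ 0}

lemma S3_graph {I : Finset (Fin n)} {P : Fin n → (MvPolynomial ↥I F)[X]} {z : Fin n → ℂ}
    (hz : z ∈ S3 I P) :
    ∃ Ψ : (↥I → ℂ) → (Fin n → ℂ), AnalyticAt ℂ Ψ (rs I z) ∧ Ψ (rs I z) = z ∧
      (∀ᶠ z' in 𝓝 z, z' ∈ S3 I P → Ψ (rs I z') = z') ∧ (∀ x, ∀ i : ↥I, Ψ x i = x i) ∧
      ∀ᶠ x in 𝓝 (rs I z), ∀ j, j ∉ I → HH (P j) (x, Ψ x j) = 0 := by
  obtain ⟨Ψ, h1, h2, h3, h4, h5⟩ := graph3 I z (fun j => HH (P j))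
    (fun j _ => HH_an (P j) _ (mem_univ _)) (fun j hj => (hz j hj).2.1)
    (fun j hj => by
      rw [HH_fd]
      exact (hz j hj).2.2)
  refine ⟨Ψ, h1, h2, ?_, h4, h5⟩
  filter_upwards [h3] with z' hz' h
  exact hz' (fun j hj => (h j hj).2.1)

lemma S3_thin {m : ℕ} (I : Finset (Fin n)) (P : Fin n → (MvPolynomial ↥I F)[X])
    (hI : I.card ≤ m) : Thin m (S3 I P) := by
  apply thin_local
  intro z hz
  obtain ⟨Ψ, h1, -, h3, -, -⟩ := S3_graph hz
  refine local_thin h1 (T := univ) ?_ (thin_univ ↥I (by rwa [Fintype.card_coe]))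
  filter_upwards [h3] with z' hz' h
  exact ⟨hz' h, mem_univ _⟩

/-- the values of `1 / Γ` at some coordinates -/
noncomputable def gv (I T : Finset (Fin n)) (z : Fin n → ℂ) : ↥I ⊕ ↥T → ℂ :=
  Sum.elim (rs I z) (fun t => g (z t))

/-- points on given graphs of algebraic functions with one relation more -/
def S4 (I T : Finset (Fin n)) (P : Fin n → (MvPolynomial ↥I F)[X])
    (Q : MvPolynomial (↥I ⊕ ↥T) F) : Set (Fin n → ℂ) :=
  {z | z ∈ S3 I P ∧ (∀ t ∈ T, ¬ IsAlgebraic F (z t)) ∧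
    (∀ i j, i ≠ j → ∀ p q : ℚ, z i ≠ p * z j + q) ∧ MvPolynomial.aeval (gv I T z) Q = 0}

lemma sum_eval' {σ τ : Type} (a : σ → ℂ) (b : τ → ℂ) (P : MvPolynomial (σ ⊕ τ) ℂ) :
    MvPolynomial.eval a (MvPolynomial.map (MvPolynomial.eval b)
      (MvPolynomial.sumAlgEquiv ℂ σ τ P)) = MvPolynomial.eval (Sum.elim a b) P := by
  have h2 : (MvPolynomial.eval (Sum.elim a b) : MvPolynomial (σ ⊕ τ) ℂ →+* ℂ) =
      ((MvPolynomial.eval a).comp (MvPolynomial.map (MvPolynomial.eval b))).comp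
        (MvPolynomial.sumAlgEquiv ℂ σ τ).toRingEquiv.toRingHom := by
    apply MvPolynomial.ringHom_ext
    · intro r
      simp
    · intro i
      rcases i with i | i <;> simp
  exact (congrArg (fun f : MvPolynomial (σ ⊕ τ) ℂ →+* ℂ => f P) h2).symm

lemma reindex_rel {ι : Type} {d : ℕ} (e : Fin d ≃ ι) {P : (MvPolynomial ι F)[X]} (hP : P ≠ 0) :
    ∃ Q : (MvPolynomial (Fin d) ℂ)[X], Q ≠ 0 ∧ ∀ (t : Fin d → ℂ) (w : ℂ),
      (Q.map (MvPolynomial.eval t)).eval w = HH P (fun i => t (e.symm i), w) := by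
  set φ : MvPolynomial ι F →+* MvPolynomial (Fin d) ℂ :=
    ((MvPolynomial.rename e.symm : MvPolynomial ι ℂ →ₐ[ℂ] MvPolynomial (Fin d) ℂ) :
      MvPolynomial ι ℂ →+* MvPolynomial (Fin d) ℂ).comp (MvPolynomial.map (algebraMap F ℂ))
    with hφ
  have hφi : Function.Injective φ := by
    intro a b hab
    apply MvPolynomial.map_injective _ (algebraMap F ℂ).injective
    exact MvPolynomial.rename_injective _ e.symm.injective hab
  refine ⟨P.map φ, (Polynomial.map_ne_zero_iff hφi).2 hP, ?_⟩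
  intro t w
  have h1 : (MvPolynomial.eval t).comp φ = (MvPolynomial.aeval (fun i => t (e.symm i)) :
      MvPolynomial ι F →ₐ[F] ℂ).toRingHom := by
    apply MvPolynomial.ringHom_ext
    · intro r
      simp [hφ]
    · intro i
      simp [hφ]
  rw [Polynomial.map_map, h1, Polynomial.eval_map]
  rfl

lemma S4_thin (hAL : Pool.Agent.W175.GF.S_GTD) {m : ℕ} {I T : Finset (Fin n)}
    (hI : I.card ≤ m + 1) (P : Fin n → (MvPolynomial ↥I F)[X])
    {Q : MvPolynomial (↥I ⊕ ↥T) F} (hQ : Q ≠ 0) : Thin m (S4 I T P Q) := by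
  classical
  have hIc : Fintype.card ↥I ≤ m + 1 := by rwa [Fintype.card_coe]
  apply thin_local
  rintro z ⟨hz, hz1, hz2, hz3⟩
  obtain ⟨Ψ, a1, a2, a3, a4, a5⟩ := S3_graph hz
  obtain ⟨ε, hε, hball⟩ := Metric.eventually_nhds_iff_ball.1 (a1.eventually_analyticAt.and a5)
  set V := Metric.ball (rs I z) ε with hVdef
  have hV : IsOpen V := Metric.isOpen_ball
  have hVc : Convex ℝ V := convex_ball _ _
  have hVp : IsPreconnected V := hVc.isPreconnected
  have hzV : rs I z ∈ V := Metric.mem_ball_self hε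
  have hψ : ∀ j, AnalyticOnNhd ℂ (fun x => Ψ x j) V := fun j x hx =>
    (analyticAt_pi_iff.1 (hball x hx).1) j
  have hxi : ∀ i : ↥I, AnalyticOnNhd ℂ (fun x : ↥I → ℂ => x i) V := fun i =>
    (ContinuousLinearMap.proj (R := ℂ) (φ := fun _ : ↥I => ℂ) i).analyticOnNhd V
  have hrs : ∀ x, rs I (Ψ x) = x := fun x => funext (fun i => a4 x i)
  have hh : AnalyticOnNhd ℂ (fun x : ↥I → ℂ => MvPolynomial.aeval (gv I T (Ψ x)) Q) V := by
    refine AnalyticOnNhd.aeval_mvPolynomial (A := F) ?_ Q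
    rintro (i | t)
    · exact hψ i
    · exact g_an (hψ t)
  have hVn : ∀ᶠ z' in 𝓝 z, rs I z' ∈ V := (rs_cont I).continuousAt.eventually (hV.mem_nhds hzV)
  by_cases hA : ∃ x ∈ V, MvPolynomial.aeval (gv I T (Ψ x)) Q ≠ 0
  · refine local_thin a1 ?_ (thin_zero hV hVp hh hA hIc)
    filter_upwards [a3, hVn] with z' b1 b2 hz'
    have b3 := b1 hz'.1
    refine ⟨b3, b2, ?_⟩
    rw [b3]
    exact hz'.2.2.2
  exfalso
  push Not at hA
  -- the relations
  set P' : Fin n → (MvPolynomial ↥I F)[X] := fun j =>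
    if hj : j ∈ I then Polynomial.X - Polynomial.C (MvPolynomial.X ⟨j, hj⟩) else P j with hP'
  have hP'0 : ∀ j, P' j ≠ 0 := by
    intro j
    by_cases hj : j ∈ I
    · simp only [hP', hj, dite_true]
      exact Polynomial.X_sub_C_ne_zero _
    · simp only [hP', hj, dite_false]
      exact (hz j hj).1
  have hP'e : ∀ j, ∀ x ∈ V, HH (P' j) (x, Ψ x j) = 0 := by
    intro j x hx
    by_cases hj : j ∈ I
    · have e1 := a4 x ⟨j, hj⟩
      simp only [hP', hj, dite_true]
      unfold HH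
      rw [Polynomial.eval₂_sub, Polynomial.eval₂_X, Polynomial.eval₂_C]
      simp only at e1
      rw [e1]
      simp
    · simp only [hP', hj, dite_false]
      exact (hball x hx).2 j hj
  -- reindexing
  set eI : Fin I.card ≃ ↥I := I.equivFin.symm with heI
  set eT : Fin T.card ≃ ↥T := T.equivFin.symm with heT
  set ρ : (Fin I.card → ℂ) → (↥I → ℂ) := fun t i => t (eI.symm i) with hρ
  have hρc : Continuous ρ := continuous_pi fun i => continuous_apply _
  have hρa : AnalyticOnNhd ℂ ρ univ := by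
    intro t _
    rw [analyticAt_pi_iff]
    intro i
    exact (ContinuousLinearMap.proj (R := ℂ) (φ := fun _ : Fin I.card => ℂ)
      (eI.symm i)).analyticAt _
  have hΩc : Convex ℝ (ρ ⁻¹' V) := by
    intro s hs t ht a b ha hb hab
    have e1 : ρ (a • s + b • t) = a • ρ s + b • ρ t := rfl
    change ρ (a • s + b • t) ∈ V
    rw [e1]
    exact hVc hs ht ha hb hab
  have hbase : ρ (fun k => z (eI k)) = rs I z := by
    funext i
    simp only [hρ, Equiv.apply_symm_apply]
    rfl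
  have hbV : (fun k => z (eI k)) ∈ ρ ⁻¹' V := by
    rw [Set.mem_preimage, hbase]
    exact hzV
  -- the polynomial
  obtain ⟨Q₂, hQ₂, hQ₂e⟩ := invert (fun s : ↥I ⊕ ↥T => ∃ t, s = Sum.inr t)
    (MvPolynomial.map (algebraMap F ℂ) Q) (fun h => hQ
      ((map_eq_zero_iff _ (MvPolynomial.map_injective _ (algebraMap F ℂ).injective)).1 h))
  set e : ↥I ⊕ ↥T → Fin T.card ⊕ Fin I.card := fun s =>
    s.elim (fun i => Sum.inr (eI.symm i)) (fun t => Sum.inl (eT.symm t)) with he
  have hei : Function.Injective e := by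
    rintro (i | i) (j | j) h
    · simp only [he, Sum.elim_inl, Sum.inr.injEq] at h
      rw [eI.symm.injective h]
    · simp [he] at h
    · simp [he] at h
    · simp only [he, Sum.elim_inr, Sum.inl.injEq] at h
      rw [eT.symm.injective h]
  have hR : MvPolynomial.sumAlgEquiv ℂ (Fin T.card) (Fin I.card)
      (MvPolynomial.rename e Q₂) ≠ 0 := by
    intro h
    apply hQ₂
    apply (map_eq_zero_iff _ (MvPolynomial.rename_injective _ hei)).1
    exact (map_eq_zero_iff _
      (MvPolynomial.sumAlgEquiv ℂ (Fin T.card) (Fin I.card)).injective).1 h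
  obtain ⟨t, htΩ, hpole, hval⟩ := hAL I.card T.card (ρ ⁻¹' V)
    (fun k t => Ψ (ρ t) (eT k)) (hV.preimage hρc) hΩc.isPreconnected ⟨_, hbV⟩
    (fun k t ht => (hψ (eT k) (ρ t) ht).comp (hρa t (mem_univ _)))
    (by
      intro k
      obtain ⟨Q', h1, h2⟩ := reindex_rel eI (hP'0 (eT k))
      refine ⟨Q', h1, fun t ht => ?_⟩
      rw [h2]
      exact hP'e (eT k) (ρ t) ht)
    (by
      intro k v hv
      have hT := (eT k).2
      apply hz1 _ hT
      have hv0 : v = z (eT k) := by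
        have := hv _ hbV
        rw [hbase, a2] at this
        exact this.symm
      rw [← hv0]
      refine const_alg2 hV ⟨_, hzV⟩ (hP'0 (eT k)) ?_
      intro x hx
      have hx' : ρ (fun k => x (eI k)) = x := by
        funext i
        simp only [hρ, Equiv.apply_symm_apply]
      have h1 := hv (fun k => x (eI k)) (by
        rw [Set.mem_preimage, hx']
        exact hx)
      rw [hx'] at h1
      rw [← h1]
      exact hP'e (eT k) x hx)
    (by
      intro i j hij p q h
      have h1 := h _ hbV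
      rw [hbase, a2] at h1
      refine hz2 (eT i) (eT j) ?_ p q h1
      intro h2
      exact hij (eT.injective (Subtype.ext h2)))
    _ hR
  apply hval
  rw [sum_eval', MvPolynomial.eval_rename]
  refine hQ₂e (gv I T (Ψ (ρ t))) _ ?_ ?_ ?_
  · rintro s ⟨u, rfl⟩
    have h1 := hpole (eT.symm u)
    simp only [Equiv.apply_symm_apply] at h1
    change Complex.Gamma (Ψ (ρ t) (eT (eT.symm u))) * g (Ψ (ρ t) u) = 1
    rw [Equiv.apply_symm_apply, mul_comm]
    apply g_mul
    exact inv_Gamma_ne.2 h1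
  · rintro (i | u) hs
    · change t (eI.symm i) = Ψ (ρ t) i
      rw [a4]
    · exact absurd ⟨u, rfl⟩ hs
  · rw [MvPolynomial.eval_map]
    exact hA (ρ t) htΩ

end Pool.Agent.TH814.GD
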