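import Pool.Agent.TH814.GD.Nv

set_option autoImplicit false

/-!
The theorem of Ax-Schanuel type for `Γ` in codimension one: several coordinates and one more
function.
-/

namespace Pool.Agent.TH814.GD

open Filter Topology Set
open scoped Polynomial
open Pool.Agent.TH814.GS

lemma local_inv {Ω : Set ℂ} (hΩ : IsOpen Ω) (hp : IsPreconnected Ω) (hne : Ω.Nonempty)
    {φ : ℂ → ℂ} (hφ : DifferentiableOn ℂ φ Ω) (h1 : ∀ t ∈ Ω, g t ≠ 0)
    (h2 : ∀ t ∈ Ω, g (φ t) ≠ 0) (hd1 : Dep3 Ω (fun t => t) g φ)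
    (hd2 : Dep3 Ω (fun t => t) g (fun t => g (φ t))) :
    (∃ c, ∀ t ∈ Ω, φ t = c) ∨ ∃ m : ℤ, ∀ t ∈ Ω, φ t = t + m := by
  refine local_case hΩ hp hne hφ (fun t ht => inv_Gamma_ne.1 (h1 t ht))
    (fun t ht => inv_Gamma_ne.1 (h2 t ht)) ?_ ?_
  · have a1 : Dep3 Ω (fun t => (g t)⁻¹) (fun t => t) φ := hd1.swap.inv h1
    have a2 : (fun t => (g t)⁻¹) = Complex.Gamma := by
      funext t
      simp [g]
    rw [a2] at a1
    exact a1.swap
  · have a1 : Dep3 Ω (fun t => (g t)⁻¹) (fun t => t) (fun t => g (φ t)) := hd2.swap.inv h1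
    have a2 : (fun t => (g t)⁻¹) = Complex.Gamma := by
      funext t
      simp [g]
    rw [a2] at a1
    have a3 : Dep3 Ω (fun t => (g (φ t))⁻¹) Complex.Gamma (fun t => t) := a1.perm.perm.inv h2
    have a4 : (fun t => (g (φ t))⁻¹) = fun t => Complex.Gamma (φ t) := by
      funext t
      simp [g]
    rw [a4] at a3
    exact a3.perm.swap

variable {ι : Type} [DecidableEq ι]

/-- restriction to a line parallel to a coordinate axis -/
noncomputable def sp (i : ι) (q : ι → ℂ) : Option (ι ⊕ ι) → MvPolynomial (Fin 3) ℂ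
  | none => MvPolynomial.X 2
  | some (.inl j) => if j = i then MvPolynomial.X 0 else MvPolynomial.C (q j)
  | some (.inr j) => if j = i then MvPolynomial.X 1 else MvPolynomial.C (g (q j))

lemma sp_eval (i : ι) (q : ι → ℂ) (z w : ℂ) (P : MvPolynomial (Option (ι ⊕ ι)) ℂ) :
    MvPolynomial.eval ![z, g z, w] (MvPolynomial.bind₁ (sp i q) P) =
      MvPolynomial.eval (fun o => o.elim w (env (Function.update q i z))) P := by
  have h : (MvPolynomial.eval ![z, g z, w]).comp
      (MvPolynomial.bind₁ (sp i q) : MvPolynomial (Option (ι ⊕ ι)) ℂ →ₐ[ℂ] _).toRingHom =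
      MvPolynomial.eval (fun o => o.elim w (env (Function.update q i z))) := by
    apply MvPolynomial.ringHom_ext
    · intro r
      simp
    · intro o
      change MvPolynomial.eval ![z, g z, w] (MvPolynomial.bind₁ (sp i q) (MvPolynomial.X o)) = _
      rw [MvPolynomial.bind₁_X_right, MvPolynomial.eval_X]
      rcases o with _ | (j | j)
      · change MvPolynomial.eval ![z, g z, w] (MvPolynomial.X 2) = w
        rw [MvPolynomial.eval_X]
        rfl
      · change MvPolynomial.eval ![z, g z, w]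
          (if j = i then MvPolynomial.X 0 else MvPolynomial.C (q j)) = Function.update q i z j
        by_cases hj : j = i
        · subst hj
          rw [if_pos rfl, MvPolynomial.eval_X, Function.update_self]
          rfl
        · rw [if_neg hj, MvPolynomial.eval_C, Function.update_of_ne hj]
      · change MvPolynomial.eval ![z, g z, w]
          (if j = i then MvPolynomial.X 1 else MvPolynomial.C (g (q j))) =
            g (Function.update q i z j)
        by_cases hj : j = i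
        · subst hj
          rw [if_pos rfl, MvPolynomial.eval_X, Function.update_self]
          rfl
        · rw [if_neg hj, MvPolynomial.eval_C, Function.update_of_ne hj]
  exact congrArg (fun φ : MvPolynomial (Option (ι ⊕ ι)) ℂ →+* ℂ => φ P) h

lemma slice [Fintype ι] {B : Set (ι → ℂ)} (hB : IsOpen B) {ψ : (ι → ℂ) → ℂ}
    (hψ : DifferentiableOn ℂ ψ B) (hg1 : ∀ x ∈ B, ∀ i, g (x i) ≠ 0) (hg2 : ∀ x ∈ B, g (ψ x) ≠ 0)
    {P₁ P₂ : MvPolynomial (Option (ι ⊕ ι)) ℂ}
    (h1 : ∀ x ∈ B, MvPolynomial.eval (fun o => o.elim (ψ x) (env x)) P₁ = 0)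
    (h2 : ∀ x ∈ B, MvPolynomial.eval (fun o => o.elim (g (ψ x)) (env x)) P₂ = 0)
    {x : ι → ℂ} (hx : x ∈ B) {w : ℂ}
    (hw : MvPolynomial.eval (fun o => o.elim w (env x)) (P₁ * P₂) ≠ 0) (i : ι) :
    fderiv ℂ ψ x (Pi.single i 1) = 0 ∨
      (fderiv ℂ ψ x (Pi.single i 1) = 1 ∧ ∃ m : ℤ, ψ x = x i + m) := by
  rw [map_mul] at hw
  have hcont : Continuous (fun z : ℂ => Function.update x i z) := continuous_const.update i continuous_id
  have hmem : (fun z : ℂ => Function.update x i z) ⁻¹' B ∈ 𝓝 (x i) := by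
    apply hcont.continuousAt.preimage_mem_nhds
    rw [Function.update_eq_self]
    exact hB.mem_nhds hx
  obtain ⟨δ, hδ, hball⟩ := Metric.mem_nhds_iff.1 hmem
  set Ω := Metric.ball (x i) δ with hΩ
  have hΩo : IsOpen Ω := Metric.isOpen_ball
  have hΩp : IsPreconnected Ω := (convex_ball _ _).isPreconnected
  have hxΩ : x i ∈ Ω := Metric.mem_ball_self hδ
  have hd : ∀ z ∈ Ω, HasDerivAt (fun z => ψ (Function.update x i z))
      (fderiv ℂ ψ (Function.update x i z) (Pi.single i 1)) z := by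
    intro z hz
    have e1 : HasFDerivAt ψ (fderiv ℂ ψ (Function.update x i z)) (Function.update x i z) :=
      ((hψ _ (hball hz)).differentiableAt (hB.mem_nhds (hball hz))).hasFDerivAt
    exact e1.comp_hasDerivAt z (hasDerivAt_update x i z)
  have key := local_inv hΩo hΩp ⟨_, hxΩ⟩ (φ := fun z => ψ (Function.update x i z))
    (fun z hz => (hd z hz).differentiableAt.differentiableWithinAt)
    (fun z hz => by
      have := hg1 (Function.update x i z) (hball hz) i
      rwa [Function.update_self] at this)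
    (fun z hz => hg2 _ (hball hz))
    ⟨MvPolynomial.bind₁ (sp i x) P₁, fun h0 => by
      apply left_ne_zero_of_mul hw
      have := sp_eval i x (x i) w P₁
      rw [h0, map_zero, Function.update_eq_self] at this
      exact this.symm, fun z hz => by
      rw [sp_eval]
      exact h1 _ (hball hz)⟩
    ⟨MvPolynomial.bind₁ (sp i x) P₂, fun h0 => by
      apply right_ne_zero_of_mul hw
      have := sp_eval i x (x i) w P₂
      rw [h0, map_zero, Function.update_eq_self] at this
      exact this.symm, fun z hz => by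
      rw [sp_eval]
      exact h2 _ (hball hz)⟩
  have hd0 := hd _ hxΩ
  rw [Function.update_eq_self] at hd0
  rcases key with ⟨c, hc⟩ | ⟨m, hm⟩
  · left
    refine hd0.unique ?_
    refine (hasDerivAt_const (x i) c).congr_of_eventuallyEq ?_
    filter_upwards [hΩo.mem_nhds hxΩ] with z hz
    exact hc z hz
  · right
    refine ⟨?_, m, ?_⟩
    · refine hd0.unique ?_
      refine ((hasDerivAt_id (x i)).add_const (m : ℂ)).congr_of_eventuallyEq ?_
      filter_upwards [hΩo.mem_nhds hxΩ] with z hz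
      exact hm z hz
    · have := hm _ hxΩ
      simp only [Function.update_eq_self] at this
      exact this

lemma countable_const {X : Type*} [TopologicalSpace X] {V : Set X} (hp : IsPreconnected V)
    {f : X → ℂ} (hf : ContinuousOn f V) {S : Set ℂ} (hS : S.Countable) (h : ∀ x ∈ V, f x ∈ S)
    {x y : X} (hx : x ∈ V) (hy : y ∈ V) : f x = f y := by
  have hsub : f '' V ⊆ S := by
    rintro _ ⟨t, ht, rfl⟩
    exact h t ht
  exact hS.isTotallyDisconnected _ hsub (hp.image _ hf) ⟨x, hx, rfl⟩ ⟨y, hy, rfl⟩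

lemma g_zero {z : ℂ} (h : g z = 0) : z ∈ Set.range (fun n : ℕ => -(n : ℂ)) := by
  unfold g at h
  rw [inv_eq_zero, Complex.Gamma_eq_zero_iff] at h
  obtain ⟨m, hm⟩ := h
  exact ⟨m, hm.symm⟩

theorem codim [Fintype ι] {V : Set (ι → ℂ)} (hV : IsOpen V) (hp : IsPreconnected V)
    {ψ : (ι → ℂ) → ℂ} (hψ : AnalyticOnNhd ℂ ψ V) {P₁ P₂ : MvPolynomial (Option (ι ⊕ ι)) ℂ}
    (hP₁ : P₁ ≠ 0) (hP₂ : P₂ ≠ 0)
    (h1 : ∀ x ∈ V, MvPolynomial.eval (fun o => o.elim (ψ x) (env x)) P₁ = 0)
    (h2 : ∀ x ∈ V, MvPolynomial.eval (fun o => o.elim (g (ψ x)) (env x)) P₂ = 0) :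
    (∃ c, ∀ x ∈ V, ψ x = c) ∨ ∃ (i : ι) (m : ℤ), ∀ x ∈ V, ψ x = x i + m := by
  have hψc : ContinuousOn ψ V := hψ.continuousOn
  by_cases hg : ∀ x ∈ V, g (ψ x) = 0
  · left
    rcases V.eq_empty_or_nonempty with h0 | ⟨x₀, hx₀⟩
    · exact ⟨0, fun x hx => by rw [h0] at hx; exact hx.elim⟩
    · exact ⟨ψ x₀, fun x hx => countable_const hp hψc (Set.countable_range _)
        (fun y hy => g_zero (hg y hy)) hx hx₀⟩
  push Not at hg
  obtain ⟨x₁, hx₁, hgx₁⟩ := hg
  have hU₀ : IsOpen (V ∩ (fun x => g (ψ x)) ⁻¹' {0}ᶜ) :=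
    (g_diff.continuous.comp_continuousOn hψc).isOpen_inter_preimage hV isOpen_compl_singleton
  have hQ0 : (∏ i : ι, MvPolynomial.X (Sum.inr i) : MvPolynomial (ι ⊕ ι) ℂ) ≠ 0 :=
    Finset.prod_ne_zero_iff.2 (fun i _ => MvPolynomial.X_ne_zero _)
  obtain ⟨q, ⟨hqV, hgq⟩, hq0⟩ := env_dense hU₀ ⟨x₁, hx₁, hgx₁⟩ hQ0
  have hqi : ∀ i, g (q i) ≠ 0 := by
    rw [map_prod, Finset.prod_ne_zero_iff] at hq0
    intro i
    have := hq0 i (Finset.mem_univ i)
    rwa [MvPolynomial.eval_X] at this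
  have hall : ∀ᶠ x in 𝓝 q, x ∈ V ∧ g (ψ x) ≠ 0 ∧ ∀ i, g (x i) ≠ 0 := by
    have e1 : ∀ᶠ x in 𝓝 q, x ∈ V ∩ (fun x => g (ψ x)) ⁻¹' {0}ᶜ := hU₀.mem_nhds ⟨hqV, hgq⟩
    have e2 : ∀ᶠ x in 𝓝 q, ∀ i, g (x i) ≠ 0 := by
      rw [eventually_all]
      intro i
      exact ((g_diff.continuous.comp (continuous_apply i)).continuousAt).eventually_ne (hqi i)
    filter_upwards [e1, e2] with x a1 a2
    exact ⟨a1.1, a1.2, a2⟩
  obtain ⟨ε, hε, hball⟩ := Metric.eventually_nhds_iff_ball.1 hall
  set B := Metric.ball q ε with hBdef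
  have hB : IsOpen B := Metric.isOpen_ball
  have hBp : IsPreconnected B := (convex_ball _ _).isPreconnected
  have hqB : q ∈ B := Metric.mem_ball_self hε
  have hBV : B ⊆ V := fun x hx => (hball x hx).1
  have hψB : AnalyticOnNhd ℂ ψ B := hψ.mono hBV
  have hTc : ∀ i, ContinuousOn (fun x => fderiv ℂ ψ x (Pi.single i 1)) B := fun i =>
    (hψB.fderiv.continuousOn).clm_apply continuousOn_const
  have hsl : ∀ x ∈ B, ∀ w : ℂ, MvPolynomial.eval (fun o => o.elim w (env x)) (P₁ * P₂) ≠ 0 →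
      ∀ i, fderiv ℂ ψ x (Pi.single i 1) = 0 ∨
        (fderiv ℂ ψ x (Pi.single i 1) = 1 ∧ ∃ m : ℤ, ψ x = x i + m) := fun x hx w hw i =>
    slice hB hψB.differentiableOn (fun x hx => (hball x hx).2.2)
      (fun x hx => (hball x hx).2.1) (fun x hx => h1 x (hBV hx)) (fun x hx => h2 x (hBV hx)) hx hw i
  have hzero : ∀ F : (ι → ℂ) → ℂ, ContinuousOn F B →
      (∀ x ∈ B, ∀ w : ℂ, MvPolynomial.eval (fun o => o.elim w (env x)) (P₁ * P₂) ≠ 0 → F x = 0) →
      ∀ x ∈ B, F x = 0 := by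
    intro F hF hFx x hx
    by_contra h0
    have hN : IsOpen (B ∩ F ⁻¹' {0}ᶜ) := hF.isOpen_inter_preimage hB isOpen_compl_singleton
    obtain ⟨y, hy, w, hw⟩ := gen_dense hN ⟨x, hx, h0⟩ (mul_ne_zero hP₁ hP₂)
    exact hy.2 (hFx y hy.1 w hw)
  have hA : ∀ i, ∀ x ∈ B, fderiv ℂ ψ x (Pi.single i 1) * (fderiv ℂ ψ x (Pi.single i 1) - 1) = 0 := by
    intro i
    refine hzero _ ((hTc i).mul ((hTc i).sub continuousOn_const)) ?_
    intro x hx w hw
    rcases hsl x hx w hw i with h | ⟨h, -⟩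
    · rw [h, zero_mul]
    · rw [h, sub_self, mul_zero]
  have hC : ∀ i, ∀ x ∈ B, fderiv ℂ ψ x (Pi.single i 1) *
      Complex.sin ((ψ x - x i) * Real.pi) = 0 := by
    intro i
    refine hzero _ ((hTc i).mul (Complex.continuous_sin.comp_continuousOn
      (((hψB.continuousOn).sub (continuous_apply i).continuousOn).mul continuousOn_const))) ?_
    intro x hx w hw
    rcases hsl x hx w hw i with h | ⟨h, m, hm⟩
    · rw [h, zero_mul]
    · rw [hm, add_sub_cancel_left, Complex.sin_int_mul_pi, mul_zero]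
  have h01 : ∀ i, ∀ x ∈ B, fderiv ℂ ψ x (Pi.single i 1) ∈ ({0, 1} : Set ℂ) := by
    intro i x hx
    rcases mul_eq_zero.1 (hA i x hx) with h | h
    · exact Or.inl h
    · exact Or.inr (sub_eq_zero.1 h)
  have hTconst : ∀ i, ∀ x ∈ B, fderiv ℂ ψ x (Pi.single i 1) = fderiv ℂ ψ q (Pi.single i 1) :=
    fun i x hx => countable_const hBp (hTc i) (Set.to_countable _) (h01 i) hx hqB
  by_cases hT : ∀ i, fderiv ℂ ψ q (Pi.single i 1) = 0
  · left
    refine ⟨ψ q, ?_⟩
    have hBc : ∀ x ∈ B, ψ x = ψ q := by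
      intro x hx
      refine hB.is_const_of_fderiv_eq_zero hBp hψB.differentiableOn ?_ hx hqB
      intro y hy
      apply ContinuousLinearMap.coe_injective
      apply LinearMap.pi_ext'
      intro i
      apply LinearMap.ext_ring
      have := hTconst i y hy
      rw [hT i] at this
      simpa using this
    have hz : AnalyticOnNhd ℂ (fun x => ψ x - ψ q) V := hψ.sub analyticOnNhd_const
    have := hz.eqOn_zero_of_preconnected_of_eventuallyEq_zero hp hqV (by
      filter_upwards [hB.mem_nhds hqB] with x hx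
      change ψ x - ψ q = 0
      rw [hBc x hx, sub_self])
    intro x hx
    exact sub_eq_zero.1 (this hx)
  · right
    push Not at hT
    obtain ⟨i, hi⟩ := hT
    have hsin : ∀ x ∈ B, ψ x - x i ∈ Set.range (fun n : ℤ => (n : ℂ)) := by
      intro x hx
      have e1 := hC i x hx
      rw [hTconst i x hx] at e1
      have e2 := (mul_eq_zero.1 e1).resolve_left hi
      rw [Complex.sin_eq_zero_iff] at e2
      obtain ⟨k, hk⟩ := e2
      refine ⟨k, ?_⟩
      have hpi : (Real.pi : ℂ) ≠ 0 := by exact_mod_cast Real.pi_ne_zero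
      exact (mul_right_cancel₀ hpi hk).symm
    obtain ⟨m, hm⟩ := hsin q hqB
    refine ⟨i, m, ?_⟩
    have hBc : ∀ x ∈ B, ψ x - x i = m := by
      intro x hx
      have e1 : (fun x : ι → ℂ => ψ x - x i) x = (fun x : ι → ℂ => ψ x - x i) q :=
        countable_const hBp ((hψB.continuousOn).sub (continuous_apply i).continuousOn)
          (Set.countable_range _) hsin hx hqB
      simp only at e1 hm
      rw [e1, ← hm]
    have hz : AnalyticOnNhd ℂ (fun x : ι → ℂ => ψ x - (x i + m)) V := by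
      refine hψ.sub (AnalyticOnNhd.add ?_ analyticOnNhd_const)
      exact (ContinuousLinearMap.proj (R := ℂ) (φ := fun _ : ι => ℂ) i).analyticOnNhd V
    have := hz.eqOn_zero_of_preconnected_of_eventuallyEq_zero hp hqV (by
      filter_upwards [hB.mem_nhds hqB] with x hx
      change ψ x - (x i + m) = 0
      rw [← hBc x hx]
      ring)
    intro x hx
    exact sub_eq_zero.1 (this hx)

end Pool.Agent.TH814.GD
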