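import Mathlib

set_option autoImplicit false

/-!
The Hausdorff dimension of zero sets of analytic functions of several complex variables.
-/

namespace Pool.Agent.TH814.GD

open Filter Topology Set Module
open scoped ENNReal

lemma dimH_local {X : Type*} [EMetricSpace X] [SecondCountableTopology X] {s : Set X} {D : ℝ≥0∞}
    (h : ∀ x ∈ s, ∃ t ∈ 𝓝[s] x, dimH t ≤ D) : dimH s ≤ D := by
  by_contra hcon
  push Not at hcon
  obtain ⟨x, hx, h1⟩ := exists_mem_nhdsWithin_lt_dimH_of_lt_dimH hcon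
  obtain ⟨t, ht, h2⟩ := h x hx
  exact absurd (h1 t ht) (not_lt.2 h2)

variable {X : Type} [NormedAddCommGroup X] [NormedSpace ℂ X] [FiniteDimensional ℂ X]

lemma dim_univ : dimH (Set.univ : Set X) = ((2 * finrank ℂ X : ℕ) : ℝ≥0∞) := by
  rw [Real.dimH_univ_eq_finrank, finrank_real_of_complex]

lemma dim_reg {V : Set X} {u : X → ℂ} (hu : AnalyticOnNhd ℂ u V) :
    dimH {x ∈ V | u x = 0 ∧ fderiv ℂ u x ≠ 0} ≤ ((2 * (finrank ℂ X - 1) : ℕ) : ℝ≥0∞) := by
  have : ProperSpace X := FiniteDimensional.proper ℂ X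
  have : CompleteSpace X := FiniteDimensional.complete ℂ X
  apply dimH_local
  rintro x ⟨hx, hx0, hx1⟩
  have hs : HasStrictFDerivAt u (fderiv ℂ u x) x := (hu x hx).hasStrictFDerivAt
  have hr : (fderiv ℂ u x).range = ⊤ := by
    apply LinearMap.range_eq_top.2
    apply LinearMap.surjective_iff_ne_zero.2
    intro h
    apply hx1
    ext y
    exact congrArg (fun f : X →ₗ[ℂ] ℂ => f y) h
  obtain ⟨K, t, ht, hK⟩ := (hs.to_implicitFunction hr).exists_lipschitzOnWith
  have hcont : Tendsto (fun y => (hs.implicitToOpenPartialHomeomorph u _ hr y).snd) (𝓝 x)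
      (𝓝 0) := by
    have h1 := (hs.implicitToOpenPartialHomeomorph u _ hr).continuousAt
      (hs.mem_implicitToOpenPartialHomeomorph_source hr)
    have h2 := h1.snd.tendsto
    rw [hs.implicitToOpenPartialHomeomorph_self hr] at h2
    exact h2
  have hN : ∀ᶠ y in 𝓝 x, hs.implicitFunction u _ hr (u y)
      (hs.implicitToOpenPartialHomeomorph u _ hr y).snd = y ∧
      (hs.implicitToOpenPartialHomeomorph u _ hr y).snd ∈ t :=
    (hs.eq_implicitFunction hr).and (hcont.eventually ht)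
  refine ⟨_, inter_mem (mem_nhdsWithin_of_mem_nhds hN) self_mem_nhdsWithin, ?_⟩
  calc dimH ({y | hs.implicitFunction u _ hr (u y)
      (hs.implicitToOpenPartialHomeomorph u _ hr y).snd = y ∧
      (hs.implicitToOpenPartialHomeomorph u _ hr y).snd ∈ t} ∩
      {x ∈ V | u x = 0 ∧ fderiv ℂ u x ≠ 0})
      ≤ dimH (hs.implicitFunction u _ hr (u x) '' t) := by
        apply dimH_mono
        rintro y ⟨⟨h1, h2⟩, -, h3, -⟩
        refine ⟨_, h2, ?_⟩
        rw [hx0, ← h3]
        exact h1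
    _ ≤ dimH t := hK.dimH_image_le
    _ ≤ dimH (Set.univ : Set (fderiv ℂ u x).ker) := dimH_mono (Set.subset_univ _)
    _ = ((2 * finrank ℂ (fderiv ℂ u x).ker : ℕ) : ℝ≥0∞) := dim_univ
    _ = ((2 * (finrank ℂ X - 1) : ℕ) : ℝ≥0∞) := by
        have h1 := LinearMap.finrank_range_add_finrank_ker (fderiv ℂ u x).toLinearMap
        have h2 : finrank ℂ (LinearMap.range (fderiv ℂ u x).toLinearMap) = 1 := by
          have h3 : LinearMap.range (fderiv ℂ u x).toLinearMap = ⊤ := hr
          rw [h3, finrank_top, finrank_self]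
        rw [h2] at h1
        have h4 : finrank ℂ (fderiv ℂ u x).ker = finrank ℂ X - 1 := by
          have h5 : finrank ℂ (LinearMap.ker (fderiv ℂ u x).toLinearMap) = finrank ℂ X - 1 := by
            omega
          exact h5
        rw [h4]

/-- iterated derivatives in one direction -/
noncomputable def Dv (h : X → ℂ) (v : X) : ℕ → X → ℂ
  | 0 => h
  | k + 1 => fun x => fderiv ℂ (Dv h v k) x v

omit [FiniteDimensional ℂ X] in
lemma Dv_an {V : Set X} {h : X → ℂ} (hh : AnalyticOnNhd ℂ h V) (v : X) (k : ℕ) :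
    AnalyticOnNhd ℂ (Dv h v k) V := by
  induction k with
  | zero => exact hh
  | succ k ih => exact (ContinuousLinearMap.apply ℂ ℂ v).comp_analyticOnNhd ih.fderiv

lemma exists_Dv {V : Set X} (hV : IsOpen V) (hp : IsPreconnected V) {h : X → ℂ}
    (hh : AnalyticOnNhd ℂ h V) (hne : ∃ x ∈ V, h x ≠ 0) {x : X} (hx : x ∈ V) :
    ∃ v K, Dv h v K x ≠ 0 := by
  by_cases hx0 : h x = 0
  swap
  · exact ⟨0, 0, hx0⟩
  obtain ⟨ε, hε, hball⟩ := Metric.isOpen_iff.1 hV x hx
  obtain ⟨y, hy, hy0⟩ : ∃ y ∈ Metric.ball x ε, h y ≠ 0 := by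
    by_contra hcon
    push Not at hcon
    obtain ⟨z, hz, hz0⟩ := hne
    have h1 : h =ᶠ[𝓝 x] 0 := by
      filter_upwards [Metric.ball_mem_nhds x hε] with y hy
      exact hcon y hy
    exact hz0 (hh.eqOn_zero_of_preconnected_of_eventuallyEq_zero hp hx h1 hz)
  set v := y - x with hv
  have hvn : 0 < ‖v‖ := by
    rw [norm_pos_iff, hv, sub_ne_zero]
    rintro rfl
    exact hy0 hx0
  have hvε : ‖v‖ < ε := by
    rw [hv, ← dist_eq_norm]
    exact hy
  set R := ε / ‖v‖ with hR
  have hR1 : 1 < R := by rw [hR, one_lt_div hvn]; exact hvε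
  have hmem : ∀ s ∈ Metric.ball (0 : ℂ) R, x + s • v ∈ V := by
    intro s hs
    apply hball
    rw [Metric.mem_ball, dist_eq_norm, add_sub_cancel_left, norm_smul]
    rw [mem_ball_zero_iff, hR, lt_div_iff₀ hvn] at hs
    exact hs
  have hlin : ∀ s : ℂ, HasDerivAt (fun s : ℂ => x + s • v) v s := by
    intro s
    have h1 := ((hasDerivAt_id s).smul_const v).const_add x
    rw [one_smul] at h1
    exact h1
  have hder : ∀ k, ∀ s ∈ Metric.ball (0 : ℂ) R,
      HasDerivAt (fun s : ℂ => Dv h v k (x + s • v)) (Dv h v (k + 1) (x + s • v)) s := by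
    intro k s hs
    have h1 : HasFDerivAt (Dv h v k) (fderiv ℂ (Dv h v k) (x + s • v)) (x + s • v) :=
      (Dv_an hh v k _ (hmem s hs)).differentiableAt.hasFDerivAt
    exact h1.comp_hasDerivAt s (hlin s)
  have hit : ∀ k, ∀ s ∈ Metric.ball (0 : ℂ) R,
      iteratedDeriv k (fun s : ℂ => h (x + s • v)) s = Dv h v k (x + s • v) := by
    intro k
    induction k with
    | zero =>
      intro s _
      rw [iteratedDeriv_zero]
      rfl
    | succ k ih =>
      intro s hs
      rw [iteratedDeriv_succ]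
      have h1 : iteratedDeriv k (fun s : ℂ => h (x + s • v)) =ᶠ[𝓝 s]
          fun s : ℂ => Dv h v k (x + s • v) := by
        filter_upwards [Metric.isOpen_ball.mem_nhds hs] with t ht
        exact ih t ht
      rw [h1.deriv_eq]
      exact (hder k s hs).deriv
  obtain ⟨K, hK⟩ : ∃ K, Dv h v K x ≠ 0 := by
    by_contra hcon
    push Not at hcon
    have hdiff : DifferentiableOn ℂ (fun s : ℂ => h (x + s • v)) (Metric.ball 0 R) := fun s hs =>
      (hder 0 s hs).differentiableAt.differentiableWithinAt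
    have h1m : (1 : ℂ) ∈ Metric.ball (0 : ℂ) R := by
      rw [mem_ball_zero_iff, norm_one]
      exact hR1
    have h0m : (0 : ℂ) ∈ Metric.ball (0 : ℂ) R := Metric.mem_ball_self (by linarith)
    have h1 := Complex.taylorSeries_eq_on_ball' h1m hdiff
    have h2 : ∀ n, iteratedDeriv n (fun s : ℂ => h (x + s • v)) 0 = 0 := by
      intro n
      rw [hit n 0 h0m, zero_smul, add_zero]
      exact hcon n
    simp only [h2, mul_zero, zero_mul, tsum_zero] at h1
    apply hy0
    have h3 : x + (1 : ℂ) • v = y := by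
      rw [one_smul, hv]
      abel
    rw [h3] at h1
    exact h1.symm
  exact ⟨v, K, hK⟩

lemma dim_zero {V : Set X} (hV : IsOpen V) (hp : IsPreconnected V) {h : X → ℂ}
    (hh : AnalyticOnNhd ℂ h V) (hne : ∃ x ∈ V, h x ≠ 0) :
    dimH {x ∈ V | h x = 0} ≤ ((2 * (finrank ℂ X - 1) : ℕ) : ℝ≥0∞) := by
  have : ProperSpace X := FiniteDimensional.proper ℂ X
  have : CompleteSpace X := FiniteDimensional.complete ℂ X
  apply dimH_local
  rintro x ⟨hx, hx0⟩
  obtain ⟨v, K, hK⟩ := exists_Dv hV hp hh hne hx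
  have hnear : ∀ᶠ z in 𝓝 x, Dv h v K z ≠ 0 := (Dv_an hh v K x hx).continuousAt.eventually_ne hK
  refine ⟨_, inter_mem (mem_nhdsWithin_of_mem_nhds hnear) self_mem_nhdsWithin, ?_⟩
  have hsub : {z | Dv h v K z ≠ 0} ∩ {x ∈ V | h x = 0} ⊆
      ⋃ k : ℕ, {z ∈ V | Dv h v k z = 0 ∧ fderiv ℂ (Dv h v k) z ≠ 0} := by
    rintro z ⟨hz1, hz2, hz3⟩
    classical
    have hex : ∃ m, Dv h v m z ≠ 0 := ⟨K, hz1⟩
    have hm := Nat.find_spec hex
    have hm0 : Nat.find hex ≠ 0 := by
      intro h0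
      rw [h0] at hm
      exact hm hz3
    obtain ⟨k, hk⟩ := Nat.exists_eq_succ_of_ne_zero hm0
    have hk0 : Dv h v k z = 0 := by
      by_contra hne
      have := Nat.find_min' hex hne
      omega
    refine mem_iUnion.2 ⟨k, hz2, hk0, ?_⟩
    rw [hk] at hm
    intro h0
    apply hm
    change fderiv ℂ (Dv h v k) z v = 0
    rw [h0]
    rfl
  refine (dimH_mono hsub).trans ?_
  rw [dimH_iUnion]
  exact iSup_le fun k => dim_reg (Dv_an hh v k)

end Pool.Agent.TH814.GD
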