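import Pool.Agent.TH814.GD.Codim
import Pool.Agent.TH814.GD.Dim

set_option autoImplicit false

/-!
Local description of the points of a set given by analytic equations as graphs.
-/

namespace Pool.Agent.TH814.GD

open Filter Topology Set Module
open scoped ENNReal Polynomial ContDiff
open Pool.Agent.TH814.GS

section

variable {E : Type} [NormedAddCommGroup E] [NormedSpace ℂ E] [FiniteDimensional ℂ E]

lemma mult {h : E × ℂ → ℂ} (hh : AnalyticOnNhd ℂ h univ) {x : E} {w₀ : ℂ} (h0 : h (x, w₀) = 0)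
    (hne : ∃ w, h (x, w) ≠ 0) :
    ∃ k, Dv h (0, 1) k (x, w₀) = 0 ∧ Dv h (0, 1) (k + 1) (x, w₀) ≠ 0 := by
  classical
  have hder : ∀ k, ∀ s : ℂ, HasDerivAt (fun s : ℂ => Dv h (0, 1) k (x, s))
      (Dv h (0, 1) (k + 1) (x, s)) s := by
    intro k s
    have h1 : HasFDerivAt (Dv h (0, 1) k) (fderiv ℂ (Dv h (0, 1) k) (x, s)) (x, s) :=
      (Dv_an hh _ k _ (mem_univ _)).differentiableAt.hasFDerivAt
    exact h1.comp_hasDerivAt s ((hasDerivAt_const s x).prodMk (hasDerivAt_id s))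
  have hit : ∀ k, iteratedDeriv k (fun s : ℂ => h (x, s)) = fun s => Dv h (0, 1) k (x, s) := by
    intro k
    induction k with
    | zero => rw [iteratedDeriv_zero]; rfl
    | succ k ih =>
      rw [iteratedDeriv_succ, ih]
      funext s
      exact (hder k s).deriv
  have hex : ∃ K, Dv h (0, 1) K (x, w₀) ≠ 0 := by
    by_contra hcon
    push Not at hcon
    obtain ⟨w, hw⟩ := hne
    have hdiff : Differentiable ℂ (fun s : ℂ => h (x, s)) := fun s => (hder 0 s).differentiableAt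
    have h1 := Complex.taylorSeries_eq_of_entire' w₀ w hdiff
    simp only [hit, hcon, mul_zero, zero_mul, tsum_zero] at h1
    exact hw h1.symm
  have hm := Nat.find_spec hex
  have hm0 : Nat.find hex ≠ 0 := by
    intro h00
    rw [h00] at hm
    exact hm h0
  obtain ⟨k, hk⟩ := Nat.exists_eq_succ_of_ne_zero hm0
  refine ⟨k, ?_, ?_⟩
  · by_contra hne'
    have := Nat.find_min' hex hne'
    omega
  · rw [hk] at hm
    exact hm

open Pool.Agent.W848.GF in
lemma impl {h : E × ℂ → ℂ} {p : E × ℂ} (hh : AnalyticAt ℂ h p) (h0 : h p = 0)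
    (h1 : fderiv ℂ h p (0, 1) ≠ 0) :
    ∃ ψ : E → ℂ, AnalyticAt ℂ ψ p.1 ∧ ψ p.1 = p.2 ∧ ∀ᶠ v in 𝓝 p, h v = 0 → ψ v.1 = v.2 := by
  have : CompleteSpace E := FiniteDimensional.complete ℂ E
  have hi : (fderiv ℂ h p ∘L .inr ℂ E ℂ).IsInvertible := by
    apply inv_of_ne
    exact h1
  have cdf : ContDiffAt ℂ ω h p := hh.contDiffAt
  have h1' : (ω : WithTop ℕ∞) ≠ 0 := by simp
  refine ⟨cdf.implicitFunction h1' hi, (cdf.contDiffAt_implicitFunction h1' hi).analyticAt,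
    cdf.implicitFunction_apply_self h1' hi, ?_⟩
  filter_upwards [cdf.eventually_apply_eq_iff_implicitFunction h1' hi] with v hv h
  rw [h0] at hv
  exact hv.1 h

end

variable {n : ℕ}

/-- restriction of a tuple to a set of indices -/
def rs (I : Finset (Fin n)) (z : Fin n → ℂ) : ↥I → ℂ := fun i => z i

lemma rs_cont (I : Finset (Fin n)) : Continuous (rs I) :=
  continuous_pi fun _ => continuous_apply _

lemma graph (I : Finset (Fin n)) (z : Fin n → ℂ) (H : Fin n → (↥I → ℂ) × ℂ → ℂ)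
    (hH : ∀ j, j ∉ I → AnalyticAt ℂ (H j) (rs I z, z j))
    (h0 : ∀ j, j ∉ I → H j (rs I z, z j) = 0)
    (h1 : ∀ j, j ∉ I → fderiv ℂ (H j) (rs I z, z j) (0, 1) ≠ 0) :
    ∃ Ψ : (↥I → ℂ) → (Fin n → ℂ), AnalyticAt ℂ Ψ (rs I z) ∧ Ψ (rs I z) = z ∧
      ∀ᶠ z' in 𝓝 z, (∀ j, j ∉ I → H j (rs I z', z' j) = 0) → Ψ (rs I z') = z' := by
  classical
  choose! ψ a1 a2 a3 using fun (j : Fin n) (hj : j ∉ I) => impl (hH j hj) (h0 j hj) (h1 j hj)
  refine ⟨fun x j => if hj : j ∈ I then x ⟨j, hj⟩ else ψ j x, ?_, ?_, ?_⟩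
  · rw [analyticAt_pi_iff]
    intro j
    by_cases hj : j ∈ I
    · simp only [hj, dite_true]
      exact (ContinuousLinearMap.proj (R := ℂ) (φ := fun _ : ↥I => ℂ) ⟨j, hj⟩).analyticAt _
    · simp only [hj, dite_false]
      exact a1 j hj
  · funext j
    by_cases hj : j ∈ I
    · simp only [hj, dite_true]
      rfl
    · simp only [hj, dite_false]
      exact a2 j hj
  · have h2 : ∀ᶠ z' in 𝓝 z, ∀ j, j ∉ I → H j (rs I z', z' j) = 0 → ψ j (rs I z') = z' j := by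
      rw [eventually_all]
      intro j
      by_cases hj : j ∈ I
      · exact Eventually.of_forall (fun z' h => absurd hj h)
      · have hc : ContinuousAt (fun z' : Fin n → ℂ => (rs I z', z' j)) z :=
          ((rs_cont I).prodMk (continuous_apply j)).continuousAt
        filter_upwards [hc.eventually (a3 j hj)] with z' hz' _ h
        exact hz' h
    filter_upwards [h2] with z' hz' h
    funext j
    by_cases hj : j ∈ I
    · simp only [hj, dite_true]
      rfl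
    · simp only [hj, dite_false]
      exact hz' j hj (h j hj)

lemma local_dim {I : Finset (Fin n)} {z : Fin n → ℂ} {Ψ : (↥I → ℂ) → (Fin n → ℂ)}
    (hΨ : AnalyticAt ℂ Ψ (rs I z)) {S : Set (Fin n → ℂ)} {T : Set (↥I → ℂ)}
    (h1 : ∀ᶠ z' in 𝓝 z, z' ∈ S → Ψ (rs I z') = z' ∧ rs I z' ∈ T) {D : ℝ≥0∞} (hT : dimH T ≤ D) :
    ∃ t ∈ 𝓝[S] z, dimH t ≤ D := by
  obtain ⟨K, t, ht, hK⟩ := hΨ.hasStrictFDerivAt.exists_lipschitzOnWith
  have h2 : ∀ᶠ z' in 𝓝 z, rs I z' ∈ t := (rs_cont I).continuousAt.eventually ht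
  refine ⟨_, inter_mem (mem_nhdsWithin_of_mem_nhds (h1.and h2)) self_mem_nhdsWithin, ?_⟩
  have hsub : {z' | (z' ∈ S → Ψ (rs I z') = z' ∧ rs I z' ∈ T) ∧ rs I z' ∈ t} ∩ S ⊆
      Ψ '' (T ∩ t) := by
    rintro z' ⟨⟨h3, h4⟩, h5⟩
    exact ⟨rs I z', ⟨(h3 h5).2, h4⟩, (h3 h5).1⟩
  calc _ ≤ dimH (Ψ '' (T ∩ t)) := dimH_mono hsub
    _ ≤ dimH (T ∩ t) := (hK.mono inter_subset_right).dimH_image_le
    _ ≤ dimH T := dimH_mono inter_subset_left
    _ ≤ D := hT

end Pool.Agent.TH814.GD
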