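import Pool.Agent.TH814.GS.Main
import Pool.Agent.TH814.GS.Final

set_option autoImplicit false

/-!
Polynomials in several variables `z i` and `1 / Γ(z i)` do not vanish on open sets.
-/

namespace Pool.Agent.TH814.GD

open Filter Topology Set
open scoped Polynomial
open Pool.Agent.TH814.GS

/-- `1 / Γ` -/
noncomputable def g (z : ℂ) : ℂ := (Complex.Gamma z)⁻¹

lemma g_diff : Differentiable ℂ g := Complex.differentiable_one_div_Gamma

lemma sum_dense {σ τ : Type} (A : Set (σ → ℂ)) (B : Set (τ → ℂ))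
    (hA : ∀ P : MvPolynomial σ ℂ, P ≠ 0 → ∃ a ∈ A, MvPolynomial.eval a P ≠ 0)
    (hB : ∀ P : MvPolynomial τ ℂ, P ≠ 0 → ∃ a ∈ B, MvPolynomial.eval a P ≠ 0)
    (P : MvPolynomial (σ ⊕ τ) ℂ) (hP : P ≠ 0) :
    ∃ a ∈ A, ∃ b ∈ B, MvPolynomial.eval (Sum.elim a b) P ≠ 0 := by
  have hQ : MvPolynomial.sumAlgEquiv ℂ σ τ P ≠ 0 := fun h =>
    hP ((map_eq_zero_iff _ (MvPolynomial.sumAlgEquiv ℂ σ τ).injective).1 h)
  obtain ⟨m, hm⟩ := MvPolynomial.ne_zero_iff.1 hQ
  obtain ⟨b, hb, hb0⟩ := hB _ hm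
  have hQ' : MvPolynomial.map (MvPolynomial.eval b) (MvPolynomial.sumAlgEquiv ℂ σ τ P) ≠ 0 := by
    intro h
    apply hb0
    have h1 := congrArg (MvPolynomial.coeff m) h
    rw [MvPolynomial.coeff_map, MvPolynomial.coeff_zero] at h1
    exact h1
  obtain ⟨a, ha, ha0⟩ := hA _ hQ'
  refine ⟨a, ha, b, hb, ?_⟩
  intro h
  apply ha0
  have h2 : (MvPolynomial.eval (Sum.elim a b) : MvPolynomial (σ ⊕ τ) ℂ →+* ℂ) =
      ((MvPolynomial.eval a).comp (MvPolynomial.map (MvPolynomial.eval b))).comp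
        (MvPolynomial.sumAlgEquiv ℂ σ τ).toRingEquiv.toRingHom := by
    apply MvPolynomial.ringHom_ext
    · intro r
      simp
    · intro i
      rcases i with i | i <;> simp
  have h3 := congrArg (fun f : MvPolynomial (σ ⊕ τ) ℂ →+* ℂ => f P) h2
  simp only [h] at h3
  exact h3.symm

lemma one_dense {U : Set ℂ} (hU : IsOpen U) (hne : U.Nonempty) (P : R2) (hP : P ≠ 0) :
    ∃ z ∈ U, evc z P ≠ 0 := by
  by_contra hcon
  push Not at hcon
  obtain ⟨z₀, hz₀⟩ := hne
  have h2 : AnalyticOnNhd ℂ (fun z : ℂ => evc z P) Set.univ :=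
    (evc_diff P).differentiableOn.analyticOnNhd isOpen_univ
  have h3 : (fun z : ℂ => evc z P) =ᶠ[𝓝 z₀] 0 := by
    filter_upwards [hU.mem_nhds hz₀] with z hz
    exact hcon z hz
  have h4 := h2.eqOn_zero_of_preconnected_of_eventuallyEq_zero isPreconnected_univ
    (Set.mem_univ z₀) h3
  apply evt_ne 0 hP
  filter_upwards with z
  have h5 := h4 (Set.mem_univ z)
  simp only [evt, zero_add]
  exact h5

/-- the numbers `x i` and `1 / Γ(x i)` -/
noncomputable def env {ι : Type} (x : ι → ℂ) : ι ⊕ ι → ℂ := Sum.elim x (fun i => g (x i))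

/-- auxiliary reindexing -/
def opt {α : Type} : Option α ⊕ Option α → Fin 2 ⊕ (α ⊕ α)
  | .inl none => .inl 0
  | .inr none => .inl 1
  | .inl (some a) => .inr (.inl a)
  | .inr (some a) => .inr (.inr a)

lemma opt_inj {α : Type} : Function.Injective (opt (α := α)) := by
  intro a b h
  rcases a with (_ | a) | (_ | a) <;> rcases b with (_ | b) | (_ | b) <;> simp_all [opt]

lemma opt_env {α : Type} (z : ℂ) (x : α → ℂ) :
    (Sum.elim ![z, g z] (env x)) ∘ opt = env (fun o : Option α => o.elim z x) := by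
  funext i
  rcases i with (_ | a) | (_ | a) <;> simp [opt, env]

lemma box_dense (ι : Type) [Fintype ι] : ∀ U : ι → Set ℂ, (∀ i, IsOpen (U i)) →
    (∀ i, (U i).Nonempty) → ∀ P : MvPolynomial (ι ⊕ ι) ℂ, P ≠ 0 →
      ∃ x : ι → ℂ, (∀ i, x i ∈ U i) ∧ MvPolynomial.eval (env x) P ≠ 0 := by
  refine Fintype.induction_empty_option (P := fun ι _ => ∀ U : ι → Set ℂ, (∀ i, IsOpen (U i)) →
    (∀ i, (U i).Nonempty) → ∀ P : MvPolynomial (ι ⊕ ι) ℂ, P ≠ 0 →
      ∃ x : ι → ℂ, (∀ i, x i ∈ U i) ∧ MvPolynomial.eval (env x) P ≠ 0) ?_ ?_ ?_ ι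
  · intro α β _ e h U hU hne P hP
    have hinj : Function.Injective (Sum.map e.symm e.symm) :=
      Function.Injective.sumMap e.symm.injective e.symm.injective
    obtain ⟨x, hx, hx0⟩ := h (fun i => U (e i)) (fun i => hU _) (fun i => hne _)
      (MvPolynomial.rename (Sum.map e.symm e.symm) P) (by
        intro h0
        exact hP ((map_eq_zero_iff _ (MvPolynomial.rename_injective _ hinj)).1 h0))
    refine ⟨fun b => x (e.symm b), fun b => ?_, ?_⟩
    · have := hx (e.symm b)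
      rwa [e.apply_symm_apply] at this
    · rw [MvPolynomial.eval_rename] at hx0
      have h1 : env x ∘ Sum.map e.symm e.symm = env (fun b => x (e.symm b)) := by
        funext i
        rcases i with i | i <;> simp [env]
      rwa [h1] at hx0
  · intro U _ _ P hP
    refine ⟨fun i => i.elim, fun i => i.elim, ?_⟩
    rw [MvPolynomial.eq_C_of_isEmpty P] at hP ⊢
    rw [MvPolynomial.eval_C]
    intro h0
    apply hP
    rw [h0, map_zero]
  · intro α _ h U hU hne P hP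
    have hP' : MvPolynomial.rename opt P ≠ 0 := fun h0 =>
      hP ((map_eq_zero_iff _ (MvPolynomial.rename_injective _ opt_inj)).1 h0)
    obtain ⟨a, ⟨z, hz, rfl⟩, b, ⟨x, hx, rfl⟩, h1⟩ := sum_dense
      {a : Fin 2 → ℂ | ∃ z ∈ U none, a = ![z, g z]}
      {b : α ⊕ α → ℂ | ∃ x : α → ℂ, (∀ i, x i ∈ U (some i)) ∧ b = env x}
      (fun P hP => by
        obtain ⟨z, hz, h0⟩ := one_dense (hU none) (hne none) P hP
        exact ⟨_, ⟨z, hz, rfl⟩, h0⟩)
      (fun P hP => by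
        obtain ⟨x, hx, h0⟩ := h (fun i => U (some i)) (fun i => hU _) (fun i => hne _) P hP
        exact ⟨_, ⟨x, hx, rfl⟩, h0⟩) _ hP'
    refine ⟨fun o => o.elim z x, ?_, ?_⟩
    · intro o
      rcases o with _ | a
      · exact hz
      · exact hx a
    · rw [MvPolynomial.eval_rename, opt_env] at h1
      exact h1

variable {ι : Type} [Fintype ι]

lemma env_dense {U : Set (ι → ℂ)} (hU : IsOpen U) (hne : U.Nonempty)
    {P : MvPolynomial (ι ⊕ ι) ℂ} (hP : P ≠ 0) :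
    ∃ x ∈ U, MvPolynomial.eval (env x) P ≠ 0 := by
  obtain ⟨x₀, hx₀⟩ := hne
  obtain ⟨u, hu, hsub⟩ := isOpen_pi_iff'.1 hU x₀ hx₀
  obtain ⟨x, hx, h0⟩ := box_dense ι u (fun i => (hu i).1) (fun i => ⟨x₀ i, (hu i).2⟩) P hP
  exact ⟨x, hsub (fun i _ => hx i), h0⟩

omit [Fintype ι] in
lemma opt_eval (w : ℂ) (y : ι ⊕ ι → ℂ) (P : MvPolynomial (Option (ι ⊕ ι)) ℂ) :
    MvPolynomial.eval (fun o => o.elim w y) P =
      ((MvPolynomial.optionEquivLeft ℂ (ι ⊕ ι) P).map (MvPolynomial.eval y)).eval w := by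
  have h : (MvPolynomial.eval (fun o : Option (ι ⊕ ι) => o.elim w y) :
      MvPolynomial (Option (ι ⊕ ι)) ℂ →+* ℂ) =
      ((Polynomial.evalRingHom w).comp (Polynomial.mapRingHom (MvPolynomial.eval y))).comp
        (MvPolynomial.optionEquivLeft ℂ (ι ⊕ ι)).toRingEquiv.toRingHom := by
    apply MvPolynomial.ringHom_ext
    · intro r
      simp
    · intro i
      rcases i with _ | i
      · simp
      · simp
  exact congrArg (fun φ : MvPolynomial (Option (ι ⊕ ι)) ℂ →+* ℂ => φ P) h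

lemma gen_dense {U : Set (ι → ℂ)} (hU : IsOpen U) (hne : U.Nonempty)
    {P : MvPolynomial (Option (ι ⊕ ι)) ℂ} (hP : P ≠ 0) :
    ∃ x ∈ U, ∃ w : ℂ, MvPolynomial.eval (fun o => o.elim w (env x)) P ≠ 0 := by
  have hQ : MvPolynomial.optionEquivLeft ℂ (ι ⊕ ι) P ≠ 0 := fun h =>
    hP ((map_eq_zero_iff _ (MvPolynomial.optionEquivLeft ℂ (ι ⊕ ι)).injective).1 h)
  obtain ⟨k, hk⟩ : ∃ k, (MvPolynomial.optionEquivLeft ℂ (ι ⊕ ι) P).coeff k ≠ 0 := by
    by_contra hcon
    push Not at hcon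
    exact hQ (Polynomial.ext (fun k => by rw [hcon k, Polynomial.coeff_zero]))
  obtain ⟨x, hx, hx0⟩ := env_dense hU hne hk
  refine ⟨x, hx, ?_⟩
  by_contra hcon
  push Not at hcon
  have h1 : (MvPolynomial.optionEquivLeft ℂ (ι ⊕ ι) P).map (MvPolynomial.eval (env x)) = 0 := by
    apply Polynomial.funext
    intro w
    rw [← opt_eval, hcon w, Polynomial.eval_zero]
  apply hx0
  have h2 := congrArg (fun p => Polynomial.coeff p k) h1
  simp only [Polynomial.coeff_map, Polynomial.coeff_zero] at h2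
  exact h2

end Pool.Agent.TH814.GD
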