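import Pool.Agent.TH814.GD.Thin

set_option autoImplicit false

/-!
The pieces of the exceptional set.
-/

namespace Pool.Agent.TH814.GD

open Filter Topology Set Module
open scoped ENNReal Polynomial
open Pool.Agent.TH814.GS

variable {F : Type} [Field F] [Algebra F ℂ]

section

variable {ι : Type}

/-- the function defined by a relation -/
noncomputable def GG (P : MvPolynomial (Fin 2 ⊕ (ι ⊕ ι)) F) (v : (ι → ℂ) × ℂ) : ℂ :=
  MvPolynomial.aeval (Sum.elim ![v.2, g v.2] (env v.1)) P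

lemma g_an {E : Type} [NormedAddCommGroup E] [NormedSpace ℂ E] {V : Set E} {f : E → ℂ}
    (hf : AnalyticOnNhd ℂ f V) : AnalyticOnNhd ℂ (fun x => g (f x)) V := fun x hx =>
  (g_diff.analyticAt (f x)).comp (hf x hx)

lemma env_an {E : Type} [NormedAddCommGroup E] [NormedSpace ℂ E] {V : Set E} {f : E → ι → ℂ}
    (hf : ∀ i, AnalyticOnNhd ℂ (fun x => f x i) V) (i : ι ⊕ ι) :
    AnalyticOnNhd ℂ (fun x => env (f x) i) V := by
  rcases i with i | i
  · exact hf i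
  · exact g_an (hf i)

lemma GG_an [Fintype ι] (P : MvPolynomial (Fin 2 ⊕ (ι ⊕ ι)) F) :
    AnalyticOnNhd ℂ (GG P) univ := by
  refine AnalyticOnNhd.aeval_mvPolynomial (A := F) ?_ P
  rintro (i | i)
  · fin_cases i
    · exact analyticOnNhd_snd
    · exact g_an analyticOnNhd_snd
  · refine env_an (f := fun v : (ι → ℂ) × ℂ => v.1) (fun j => ?_) i
    exact ((ContinuousLinearMap.proj (R := ℂ) (φ := fun _ : ι => ℂ) j).comp
      (ContinuousLinearMap.fst ℂ (ι → ℂ) ℂ)).analyticOnNhd _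

lemma sum_aeval (a : Fin 2 → ℂ) (y : ι ⊕ ι → ℂ) (P : MvPolynomial (Fin 2 ⊕ (ι ⊕ ι)) F) :
    MvPolynomial.aeval (Sum.elim a y) P = MvPolynomial.eval a
      (MvPolynomial.map (MvPolynomial.aeval y : MvPolynomial (ι ⊕ ι) F →ₐ[F] ℂ).toRingHom
        (MvPolynomial.sumAlgEquiv F (Fin 2) (ι ⊕ ι) P)) := by
  have h : (MvPolynomial.aeval (Sum.elim a y) :
      MvPolynomial (Fin 2 ⊕ (ι ⊕ ι)) F →ₐ[F] ℂ).toRingHom =
      ((MvPolynomial.eval a).comp (MvPolynomial.map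
        (MvPolynomial.aeval y : MvPolynomial (ι ⊕ ι) F →ₐ[F] ℂ).toRingHom)).comp
        (MvPolynomial.sumAlgEquiv F (Fin 2) (ι ⊕ ι)).toRingEquiv.toRingHom := by
    apply MvPolynomial.ringHom_ext
    · intro r
      simp
    · intro i
      rcases i with i | i <;> simp
  exact congrArg (fun φ : MvPolynomial (Fin 2 ⊕ (ι ⊕ ι)) F →+* ℂ => φ P) h

lemma GG_ne {x : ι → ℂ} (hx : AlgebraicIndependent F (env x))
    {P : MvPolynomial (Fin 2 ⊕ (ι ⊕ ι)) F} (hP : P ≠ 0) : ∃ w, GG P (x, w) ≠ 0 := by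
  have hQ : MvPolynomial.sumAlgEquiv F (Fin 2) (ι ⊕ ι) P ≠ 0 := fun h =>
    hP ((map_eq_zero_iff _ (MvPolynomial.sumAlgEquiv F (Fin 2) (ι ⊕ ι)).injective).1 h)
  have hQ' : MvPolynomial.map (MvPolynomial.aeval (env x) :
      MvPolynomial (ι ⊕ ι) F →ₐ[F] ℂ).toRingHom
      (MvPolynomial.sumAlgEquiv F (Fin 2) (ι ⊕ ι) P) ≠ 0 := fun h =>
    hQ ((map_eq_zero_iff _ (MvPolynomial.map_injective _ hx)).1 h)
  obtain ⟨w, -, hw⟩ := one_dense isOpen_univ ⟨0, mem_univ _⟩ _ hQ'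
  refine ⟨w, ?_⟩
  unfold GG
  rw [sum_aeval]
  exact hw

lemma opt_aeval (w : ℂ) (y : ι ⊕ ι → ℂ) (P : MvPolynomial (Option (ι ⊕ ι)) F) :
    MvPolynomial.aeval (fun o => o.elim w y) P = MvPolynomial.eval y
      (MvPolynomial.map (Polynomial.aeval w : F[X] →ₐ[F] ℂ).toRingHom
        (MvPolynomial.optionEquivRight F (ι ⊕ ι) P)) := by
  have h : (MvPolynomial.aeval (fun o => o.elim w y) :
      MvPolynomial (Option (ι ⊕ ι)) F →ₐ[F] ℂ).toRingHom =
      ((MvPolynomial.eval y).comp (MvPolynomial.map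
        (Polynomial.aeval w : F[X] →ₐ[F] ℂ).toRingHom)).comp
        (MvPolynomial.optionEquivRight F (ι ⊕ ι)).toRingEquiv.toRingHom := by
    apply MvPolynomial.ringHom_ext
    · intro r
      simp
    · intro i
      rcases i with _ | i
      · simp
      · simp
  exact congrArg (fun φ : MvPolynomial (Option (ι ⊕ ι)) F →+* ℂ => φ P) h

lemma const_alg [Fintype ι] {V : Set (ι → ℂ)} (hV : IsOpen V) (hne : V.Nonempty)
    {P : MvPolynomial (Option (ι ⊕ ι)) F} (hP : P ≠ 0) {c : ℂ}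
    (h : ∀ x ∈ V, MvPolynomial.aeval (fun o => o.elim c (env x)) P = 0) : IsAlgebraic F c := by
  by_contra hc
  have hinj : Function.Injective (Polynomial.aeval c : F[X] →ₐ[F] ℂ).toRingHom :=
    transcendental_iff_injective.1 hc
  have hQ : MvPolynomial.optionEquivRight F (ι ⊕ ι) P ≠ 0 := fun h =>
    hP ((map_eq_zero_iff _ (MvPolynomial.optionEquivRight F (ι ⊕ ι)).injective).1 h)
  have hQ' : MvPolynomial.map (Polynomial.aeval c : F[X] →ₐ[F] ℂ).toRingHom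
      (MvPolynomial.optionEquivRight F (ι ⊕ ι) P) ≠ 0 := fun h =>
    hQ ((map_eq_zero_iff _ (MvPolynomial.map_injective _ hinj)).1 h)
  obtain ⟨x, hx, hx0⟩ := env_dense hV hne hQ'
  rw [← opt_aeval] at hx0
  exact hx0 (h x hx)

lemma opt_map (y : Option (ι ⊕ ι) → ℂ) (P : MvPolynomial (Option (ι ⊕ ι)) F) :
    MvPolynomial.eval y (MvPolynomial.map (algebraMap F ℂ) P) = MvPolynomial.aeval y P := by
  rw [MvPolynomial.eval_map]
  rfl

end

variable {n : ℕ}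

/-- points on given graphs -/
def S1 (I : Finset (Fin n)) (P : Fin n → MvPolynomial (Fin 2 ⊕ (↥I ⊕ ↥I)) F) (k : Fin n → ℕ) :
    Set (Fin n → ℂ) :=
  {z | ∀ j, j ∉ I → Dv (GG (P j)) (0, 1) (k j) (rs I z, z j) = 0 ∧
    Dv (GG (P j)) (0, 1) (k j + 1) (rs I z, z j) ≠ 0}

lemma S1_graph {I : Finset (Fin n)} {P : Fin n → MvPolynomial (Fin 2 ⊕ (↥I ⊕ ↥I)) F}
    {k : Fin n → ℕ} {z : Fin n → ℂ} (hz : z ∈ S1 I P k) :
    ∃ Ψ : (↥I → ℂ) → (Fin n → ℂ), AnalyticAt ℂ Ψ (rs I z) ∧ Ψ (rs I z) = z ∧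
      ∀ᶠ z' in 𝓝 z, z' ∈ S1 I P k → Ψ (rs I z') = z' := by
  obtain ⟨Ψ, h1, h2, h3⟩ := graph I z (fun j => Dv (GG (P j)) (0, 1) (k j))
    (fun j _ => Dv_an (GG_an (P j)) _ _ _ (mem_univ _)) (fun j hj => (hz j hj).1)
    (fun j hj => (hz j hj).2)
  refine ⟨Ψ, h1, h2, ?_⟩
  filter_upwards [h3] with z' hz' h
  exact hz' (fun j hj => (h j hj).1)

lemma S1_thin {m : ℕ} (I : Finset (Fin n)) (P : Fin n → MvPolynomial (Fin 2 ⊕ (↥I ⊕ ↥I)) F)
    (k : Fin n → ℕ) (hI : I.card ≤ m) : Thin m (S1 I P k) := by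
  apply thin_local
  intro z hz
  obtain ⟨Ψ, h1, -, h3⟩ := S1_graph hz
  refine local_thin h1 (T := univ) ?_ (thin_univ ↥I (by rwa [Fintype.card_coe]))
  filter_upwards [h3] with z' hz' h
  exact ⟨hz' h, mem_univ _⟩

/-- points on given graphs with two relations more -/
def S2 (I : Finset (Fin n)) (P : Fin n → MvPolynomial (Fin 2 ⊕ (↥I ⊕ ↥I)) F) (k : Fin n → ℕ)
    (j : Fin n) (P₁ P₂ : MvPolynomial (Option (↥I ⊕ ↥I)) F) : Set (Fin n → ℂ) :=
  {z | z ∈ S1 I P k ∧ MvPolynomial.aeval (fun o => o.elim (z j) (env (rs I z))) P₁ = 0 ∧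
    MvPolynomial.aeval (fun o => o.elim (g (z j)) (env (rs I z))) P₂ = 0 ∧ z j ∉ NN F ∧
    ∀ i, i ≠ j → ∀ m : ℤ, z j ≠ z i + m}

lemma S2_thin {m : ℕ} {I : Finset (Fin n)} (hI : I.card ≤ m + 1) (P : Fin n → MvPolynomial (Fin 2 ⊕ (↥I ⊕ ↥I)) F)
    (k : Fin n → ℕ) {j : Fin n} (hj : j ∉ I) {P₁ P₂ : MvPolynomial (Option (↥I ⊕ ↥I)) F}
    (hP₁ : P₁ ≠ 0) (hP₂ : P₂ ≠ 0) : Thin m (S2 I P k j P₁ P₂) := by
  have hIc : Fintype.card ↥I ≤ m + 1 := by rwa [Fintype.card_coe]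
  apply thin_local
  rintro z ⟨hz, hz1, hz2, hz3, hz4⟩
  obtain ⟨Ψ, a1, a2, a3⟩ := S1_graph hz
  obtain ⟨ε, hε, hball⟩ := Metric.eventually_nhds_iff_ball.1 a1.eventually_analyticAt
  set V := Metric.ball (rs I z) ε with hVdef
  have hV : IsOpen V := Metric.isOpen_ball
  have hVp : IsPreconnected V := (convex_ball _ _).isPreconnected
  have hzV : rs I z ∈ V := Metric.mem_ball_self hε
  have hψ : AnalyticOnNhd ℂ (fun x => Ψ x j) V := fun x hx =>
    (analyticAt_pi_iff.1 (hball x hx)) j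
  have hxi : ∀ i : ↥I, AnalyticOnNhd ℂ (fun x : ↥I → ℂ => x i) V := fun i =>
    (ContinuousLinearMap.proj (R := ℂ) (φ := fun _ : ↥I => ℂ) i).analyticOnNhd V
  have hh₁ : AnalyticOnNhd ℂ (fun x : ↥I → ℂ =>
      MvPolynomial.aeval (fun o => o.elim (Ψ x j) (env x)) P₁) V := by
    refine AnalyticOnNhd.aeval_mvPolynomial (A := F) ?_ P₁
    rintro (_ | i)
    · exact hψ
    · exact env_an hxi i
  have hh₂ : AnalyticOnNhd ℂ (fun x : ↥I → ℂ =>
      MvPolynomial.aeval (fun o => o.elim (g (Ψ x j)) (env x)) P₂) V := by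
    refine AnalyticOnNhd.aeval_mvPolynomial (A := F) ?_ P₂
    rintro (_ | i)
    · exact g_an hψ
    · exact env_an hxi i
  have hVn : ∀ᶠ z' in 𝓝 z, rs I z' ∈ V := (rs_cont I).continuousAt.eventually (hV.mem_nhds hzV)
  by_cases hA : ∃ x ∈ V, MvPolynomial.aeval (fun o => o.elim (Ψ x j) (env x)) P₁ ≠ 0
  · refine local_thin a1 ?_ (thin_zero hV hVp hh₁ hA hIc)
    filter_upwards [a3, hVn] with z' b1 b2 hz'
    have b3 := b1 hz'.1
    refine ⟨b3, b2, ?_⟩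
    rw [b3]
    exact hz'.2.1
  by_cases hB : ∃ x ∈ V, MvPolynomial.aeval (fun o => o.elim (g (Ψ x j)) (env x)) P₂ ≠ 0
  · refine local_thin a1 ?_ (thin_zero hV hVp hh₂ hB hIc)
    filter_upwards [a3, hVn] with z' b1 b2 hz'
    have b3 := b1 hz'.1
    refine ⟨b3, b2, ?_⟩
    rw [b3]
    exact hz'.2.2.1
  exfalso
  push Not at hA hB
  rcases codim hV hVp hψ (P₁ := MvPolynomial.map (algebraMap F ℂ) P₁)
    (P₂ := MvPolynomial.map (algebraMap F ℂ) P₂)
    (fun h => hP₁ ((map_eq_zero_iff _ (MvPolynomial.map_injective _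
      (algebraMap F ℂ).injective)).1 h))
    (fun h => hP₂ ((map_eq_zero_iff _ (MvPolynomial.map_injective _
      (algebraMap F ℂ).injective)).1 h))
    (fun x hx => by rw [opt_map]; exact hA x hx)
    (fun x hx => by rw [opt_map]; exact hB x hx) with ⟨c, hc⟩ | ⟨i, m, hm⟩
  · have hcz : c = z j := by rw [← hc _ hzV, a2]
    apply hz3
    have e1 : IsAlgebraic F c := by
      refine const_alg hV ⟨_, hzV⟩ hP₁ (fun x hx => ?_)
      have := hA x hx
      rw [hc x hx] at this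
      exact this
    have e2 : IsAlgebraic F (g c) := by
      refine const_alg hV ⟨_, hzV⟩ hP₂ (fun x hx => ?_)
      have := hB x hx
      rw [hc x hx] at this
      exact this
    rw [hcz] at e1 e2
    refine ⟨e1, ?_⟩
    have := e2.inv
    unfold g at this
    rwa [inv_inv] at this
  · have := hm _ hzV
    rw [a2] at this
    refine hz4 i ?_ m this
    rintro rfl
    exact hj i.2

end Pool.Agent.TH814.GD
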