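import Pool.Agent.TH814.GD.Graph

set_option autoImplicit false

/-!
Sets covered by countably many analytic images of open subsets of `ℂ ^ m`.
-/

namespace Pool.Agent.TH814.GD

open Filter Topology Set Module

/-- sets covered by countably many analytic images of open subsets of `ℂ ^ m` -/
def Thin (m : ℕ) {X : Type} [NormedAddCommGroup X] [NormedSpace ℂ X] (S : Set X) : Prop :=
  ∃ (Φ : ℕ → (Fin m → ℂ) → X) (U : ℕ → Set (Fin m → ℂ)), (∀ k, IsOpen (U k)) ∧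
    (∀ k, AnalyticOnNhd ℂ (Φ k) (U k)) ∧ S ⊆ ⋃ k, Φ k '' U k

variable {X : Type} [NormedAddCommGroup X] [NormedSpace ℂ X] {m : ℕ}

lemma Thin.mono {S T : Set X} (hT : Thin m T) (h : S ⊆ T) : Thin m S := by
  obtain ⟨Φ, U, h1, h2, h3⟩ := hT
  exact ⟨Φ, U, h1, h2, h.trans h3⟩

lemma thin_union {ι : Sort*} [Countable ι] {s : ι → Set X} (h : ∀ i, Thin m (s i)) :
    Thin m (⋃ i, s i) := by
  rcases isEmpty_or_nonempty ι with he | he
  · refine ⟨fun _ _ => 0, fun _ => ∅, fun _ => isOpen_empty, fun _ x hx => hx.elim, ?_⟩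
    rw [iUnion_of_empty]
    exact empty_subset _
  · choose Φ U h1 h2 h3 using h
    obtain ⟨e, he⟩ := exists_surjective_nat ι
    refine ⟨fun k => Φ (e k.unpair.1) k.unpair.2, fun k => U (e k.unpair.1) k.unpair.2,
      fun k => h1 _ _, fun k => h2 _ _, ?_⟩
    intro x hx
    obtain ⟨i, hi⟩ := mem_iUnion.1 hx
    obtain ⟨a, rfl⟩ := he i
    obtain ⟨b, hb⟩ := mem_iUnion.1 (h3 _ hi)
    refine mem_iUnion.2 ⟨Nat.pair a b, ?_⟩
    simp only [Nat.unpair_pair]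
    exact hb

lemma thin_local [SecondCountableTopology X] {S : Set X}
    (h : ∀ x ∈ S, ∃ t ∈ 𝓝[S] x, Thin m t) : Thin m S := by
  choose! t ht hm using h
  obtain ⟨c, hc, hcc, hcov⟩ := TopologicalSpace.countable_cover_nhdsWithin (f := t) (s := S) ht
  have : Countable c := hcc.to_subtype
  refine (thin_union (s := fun x : c => t x) (fun x => hm x (hc x.2))).mono (fun y hy => ?_)
  obtain ⟨x, hx, hyx⟩ := mem_iUnion₂.1 (hcov hy)
  exact mem_iUnion.2 ⟨⟨x, hx⟩, hyx⟩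

lemma Thin.image {Y : Type} [NormedAddCommGroup Y] [NormedSpace ℂ Y] {T W : Set X}
    (hT : Thin m T) (hW : IsOpen W) {Ψ : X → Y} (hΨ : AnalyticOnNhd ℂ Ψ W) :
    Thin m (Ψ '' (T ∩ W)) := by
  obtain ⟨Φ, U, h1, h2, h3⟩ := hT
  refine ⟨fun k => Ψ ∘ Φ k, fun k => U k ∩ Φ k ⁻¹' W,
    fun k => (h2 k).continuousOn.isOpen_inter_preimage (h1 k) hW,
    fun k x hx => (hΨ _ hx.2).comp (h2 k x hx.1), ?_⟩
  rintro _ ⟨x, ⟨hx, hxW⟩, rfl⟩
  obtain ⟨k, y, hy, rfl⟩ := mem_iUnion.1 (h3 hx)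
  exact mem_iUnion.2 ⟨k, y, ⟨hy, hxW⟩, rfl⟩

lemma thin_univ (ι : Type) [Fintype ι] (h : Fintype.card ι ≤ m) :
    Thin m (univ : Set (ι → ℂ)) := by
  classical
  obtain ⟨e⟩ : Nonempty (ι ↪ Fin m) := by
    apply Function.Embedding.nonempty_of_card_le
    rwa [Fintype.card_fin]
  refine ⟨fun _ y i => y (e i), fun _ => univ, fun _ => isOpen_univ, fun _ => ?_, ?_⟩
  · intro y _
    rw [analyticAt_pi_iff]
    intro i
    exact (ContinuousLinearMap.proj (R := ℂ) (φ := fun _ : Fin m => ℂ) (e i)).analyticAt _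
  · intro x _
    refine mem_iUnion.2 ⟨0, Function.extend e x 0, mem_univ _, ?_⟩
    funext i
    exact e.injective.extend_apply _ _ _

section

variable {ι : Type} [Fintype ι] [DecidableEq ι]

/-- splitting off one coordinate -/
noncomputable def JJ (i : ι) : (({j : ι // j ≠ i} → ℂ) × ℂ) →L[ℂ] (ι → ℂ) :=
  ContinuousLinearMap.pi fun j => if h : j = i then ContinuousLinearMap.snd ℂ _ ℂ else
    (ContinuousLinearMap.proj (R := ℂ) (φ := fun _ : {j : ι // j ≠ i} => ℂ) ⟨j, h⟩).comp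
      (ContinuousLinearMap.fst ℂ _ ℂ)

omit [Fintype ι] in
lemma JJ_apply (i : ι) (y : {j : ι // j ≠ i} → ℂ) (w : ℂ) (j : ι) :
    JJ i (y, w) j = if h : j = i then w else y ⟨j, h⟩ := by
  unfold JJ
  rw [ContinuousLinearMap.pi_apply]
  by_cases h : j = i
  · simp only [h, dite_true]
    rfl
  · simp only [h, dite_false]
    rfl

omit [Fintype ι] in
lemma JJ_self (i : ι) (z : ι → ℂ) : JJ i (fun j => z j, z i) = z := by
  funext j
  rw [JJ_apply]
  by_cases h : j = i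
  · simp [h]
  · simp [h]

omit [Fintype ι] in
lemma JJ_single (i : ι) : JJ i (0, 1) = Pi.single i 1 := by
  funext j
  rw [JJ_apply]
  by_cases h : j = i
  · subst h
    simp
  · simp [h]

lemma thin_reg {V : Set (ι → ℂ)} {u : (ι → ℂ) → ℂ} (hu : AnalyticOnNhd ℂ u V)
    (hm : Fintype.card ι ≤ m + 1) : Thin m {x ∈ V | u x = 0 ∧ fderiv ℂ u x ≠ 0} := by
  apply thin_local
  rintro x ⟨hx, hx0, hx1⟩
  obtain ⟨i, hi⟩ : ∃ i, fderiv ℂ u x (Pi.single i 1) ≠ 0 := by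
    by_contra hcon
    push Not at hcon
    apply hx1
    apply ContinuousLinearMap.coe_injective
    apply LinearMap.pi_ext'
    intro i
    apply LinearMap.ext_ring
    simpa using hcon i
  have hJ : JJ i (fun j => x j, x i) = x := JJ_self i x
  have hua : AnalyticAt ℂ u (JJ i (fun j => x j, x i)) := by rw [hJ]; exact hu x hx
  have han : AnalyticAt ℂ (fun v => u (JJ i v)) (fun j => x j, x i) :=
    hua.comp ((JJ i).analyticAt _)
  have hfd : fderiv ℂ (fun v => u (JJ i v)) (fun j => x j, x i) (0, 1) ≠ 0 := by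
    have e1 : HasFDerivAt u (fderiv ℂ u (JJ i (fun j => x j, x i))) (JJ i (fun j => x j, x i)) :=
      hua.differentiableAt.hasFDerivAt
    have e2 := (e1.comp _ (JJ i).hasFDerivAt).fderiv
    have e3 : fderiv ℂ (fun v => u (JJ i v)) (fun j => x j, x i) =
        (fderiv ℂ u (JJ i (fun j => x j, x i))).comp (JJ i) := e2
    rw [e3, ContinuousLinearMap.comp_apply, JJ_single, hJ]
    exact hi
  obtain ⟨ψ, a1, a2, a3⟩ := impl han (by simp only [hJ]; exact hx0) hfd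
  simp only at a1 a2
  obtain ⟨ε, hε, hball⟩ := Metric.eventually_nhds_iff_ball.1 a1.eventually_analyticAt
  have hcard : Fintype.card {j : ι // j ≠ i} ≤ m := by
    have := Fintype.card_subtype_compl (fun j => j = i)
    rw [Fintype.card_subtype_eq] at this
    have e : Fintype.card {j : ι // j ≠ i} = Fintype.card {j : ι // ¬ j = i} := rfl
    rw [e, this]
    omega
  have hth := (thin_univ (m := m) {j : ι // j ≠ i} hcard).image
    (W := Metric.ball (fun j : {j : ι // j ≠ i} => x j) ε) Metric.isOpen_ball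
    (Ψ := fun y => JJ i (y, ψ y)) (fun y hy =>
      ((JJ i).analyticAt _).comp (analyticAt_id.prod (hball y hy)))
  have hc : Continuous (fun z : ι → ℂ => ((fun j => z j, z i) : ({j : ι // j ≠ i} → ℂ) × ℂ)) :=
    (continuous_pi fun j => continuous_apply _).prodMk (continuous_apply i)
  have hN : ∀ᶠ z in 𝓝 x, (u (JJ i (fun j => z j, z i)) = 0 → ψ (fun j => z j) = z i) ∧
      (fun j : {j : ι // j ≠ i} => z j) ∈ Metric.ball (fun j : {j : ι // j ≠ i} => x j) ε := by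
    refine (hc.continuousAt.eventually a3).and ?_
    exact (hc.fst.continuousAt.eventually (Metric.ball_mem_nhds _ hε))
  refine ⟨_, inter_mem (mem_nhdsWithin_of_mem_nhds hN) self_mem_nhdsWithin, hth.mono ?_⟩
  rintro z ⟨⟨h1, h2⟩, -, h3, -⟩
  refine ⟨fun j => z j, ⟨mem_univ _, h2⟩, ?_⟩
  simp only
  rw [h1 (by rw [JJ_self]; exact h3), JJ_self]

lemma thin_zero {V : Set (ι → ℂ)} (hV : IsOpen V) (hp : IsPreconnected V) {h : (ι → ℂ) → ℂ}
    (hh : AnalyticOnNhd ℂ h V) (hne : ∃ x ∈ V, h x ≠ 0) (hm : Fintype.card ι ≤ m + 1) :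
    Thin m {x ∈ V | h x = 0} := by
  apply thin_local
  rintro x ⟨hx, hx0⟩
  obtain ⟨v, K, hK⟩ := exists_Dv hV hp hh hne hx
  have hnear : ∀ᶠ z in 𝓝 x, Dv h v K z ≠ 0 := (Dv_an hh v K x hx).continuousAt.eventually_ne hK
  refine ⟨_, inter_mem (mem_nhdsWithin_of_mem_nhds hnear) self_mem_nhdsWithin, ?_⟩
  refine (thin_union (s := fun k : ℕ => {z ∈ V | Dv h v k z = 0 ∧ fderiv ℂ (Dv h v k) z ≠ 0})
    (fun k => thin_reg (Dv_an hh v k) hm)).mono ?_
  rintro z ⟨hz1, hz2, hz3⟩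
  classical
  have hex : ∃ m, Dv h v m z ≠ 0 := ⟨K, hz1⟩
  have hm := Nat.find_spec hex
  have hm0 : Nat.find hex ≠ 0 := by
    intro h0
    rw [h0] at hm
    exact hm hz3
  obtain ⟨k, hk⟩ := Nat.exists_eq_succ_of_ne_zero hm0
  have hk0 : Dv h v k z = 0 := by
    by_contra hne
    have := Nat.find_min' hex hne
    omega
  refine mem_iUnion.2 ⟨k, hz2, hk0, ?_⟩
  rw [hk] at hm
  intro h0
  apply hm
  change fderiv ℂ (Dv h v k) z v = 0
  rw [h0]
  rfl

end

variable {n : ℕ}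

lemma local_thin {I : Finset (Fin n)} {z : Fin n → ℂ} {Ψ : (↥I → ℂ) → (Fin n → ℂ)}
    (hΨ : AnalyticAt ℂ Ψ (rs I z)) {S : Set (Fin n → ℂ)} {T : Set (↥I → ℂ)}
    (h1 : ∀ᶠ z' in 𝓝 z, z' ∈ S → Ψ (rs I z') = z' ∧ rs I z' ∈ T) (hT : Thin m T) :
    ∃ t ∈ 𝓝[S] z, Thin m t := by
  obtain ⟨ε, hε, hball⟩ := Metric.eventually_nhds_iff_ball.1 hΨ.eventually_analyticAt
  have h2 : ∀ᶠ z' in 𝓝 z, rs I z' ∈ Metric.ball (rs I z) ε :=
    (rs_cont I).continuousAt.eventually (Metric.ball_mem_nhds _ hε)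
  refine ⟨_, inter_mem (mem_nhdsWithin_of_mem_nhds (h1.and h2)) self_mem_nhdsWithin,
    (hT.image Metric.isOpen_ball (fun x hx => hball x hx)).mono ?_⟩
  rintro z' ⟨⟨h3, h4⟩, h5⟩
  exact ⟨rs I z', ⟨(h3 h5).2, h4⟩, (h3 h5).1⟩

end Pool.Agent.TH814.GD
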